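import Pool.Agent.helper34.AC.Spec2

set_option autoImplicit false

namespace Pool.Agent.helper34.AC

theorem BUP (hBRC : BRC_stmt) (hLAM : LAM_stmt) : BUP_stmt := by
  obtain ⟨h0, hrec, hz, h1, hpos, hb, hder⟩ := hBRC
  obtain ⟨hmono, hup, hmv⟩ := hLAM
  have hge : ∀ (m : ℕ) (z : ℝ), 0 ≤ z → F m z ≤ F m (z + 1) := by
    intro m z hz0
    unfold F
    apply Finset.sum_le_sum
    intro k _
    have hbk : (0 : ℝ) ≤ bl k := (hb k).le
    have hp : z ^ (m - k) ≤ (z + 1) ^ (m - k) := pow_le_pow_left₀ hz0 (by linarith) _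
    have hc : (0 : ℝ) ≤ (m.choose k : ℝ) := Nat.cast_nonneg _
    exact mul_le_mul_of_nonneg_right (mul_le_mul_of_nonneg_left hp hc) hbk
  intro m z hz0
  have hF : 0 < F m z := hpos m z hz0
  have hF1 : 0 < F (m + 1) z := hpos (m + 1) z hz0
  have hsub : F (m + 1) z / F m z - z = F m (z + 1) / F m z := by
    rw [hrec m z]; field_simp; ring
  have hone : 1 ≤ F m (z + 1) / F m z := (one_le_div hF).2 (hge m z hz0)
  refine ⟨by linarith, ?_⟩
  rw [hsub]
  have hZ : 0 < F (m + 1) z / F m z := div_pos hF1 hF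
  rcases m with _ | k
  · rw [h0, h0]; simp
  · obtain ⟨x, hx, hlog⟩ := hmv k z hz0
    have hlog' : Real.log (F (k + 1) (z + 1) / F (k + 1) z) = lm k x := hlog
    rw [hlog']
    have e1 : lm k x ≤ lm k z := hmono k z x hz0 hx.1
    have e2 : lm k z ≤ lm (k + 1) z := hup k z hz0
    have e3 : lm (k + 1) z = (((k + 1 : ℕ) : ℝ) + 1) / (F (k + 1 + 1) z / F (k + 1) z) := by
      unfold lm
      field_simp
    calc F (k + 1 + 1) z / F (k + 1) z * lm k x
        ≤ F (k + 1 + 1) z / F (k + 1) z * lm (k + 1) z :=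
          mul_le_mul_of_nonneg_left (e1.trans e2) hZ.le
      _ = ((k + 1 : ℕ) : ℝ) + 1 := by
          rw [e3]; field_simp

end Pool.Agent.helper34.AC
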