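import Pool.Agent.helper87.AC.MRK
import Pool.Agent.helper92.AC.REC
import Pool.Agent.helper11.AC.POS
import Pool.Agent.helper59.AC.RCN
import Pool.Agent.helper24.AC.CNE
import Pool.Agent.helper85.AC.DEC
import Pool.Agent.helper30.AC.FM1
import Pool.Agent.helper41.AC.FM2
import Pool.Agent.helper84.AC.TWO
import Pool.Agent.helper53.AC.SIZ
import Pool.Agent.helper18.AC.ISO
import Pool.Agent.helper63.AC.CLQ
import Pool.Agent.helper92.AC.BRC
import Pool.Agent.helper18.AC.KUN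
import Pool.Agent.helper13.AC.LTW
import Pool.Agent.helper53.AC.AVG
import Pool.Agent.helper92.AC.CHR
import Pool.Agent.helper58.AC.WEX
import Pool.Agent.helper63.AC.WDE
import Pool.Agent.helper46.AC.TAN
import Pool.Agent.helper1.AC.CUB
import Pool.Agent.helper1.AC.FIN
import Pool.Agent.helper67.AC.ST1
import Pool.Agent.helper67.AC.ST2
import Pool.Agent.helper2.AC.ULB
import Pool.Agent.helper53.AC.ULC
import Pool.Agent.helper53.AC.LAM
import Pool.Agent.helper30.AC.BLO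
import Pool.Agent.helper34.AC.BUP
import Pool.Agent.helper12.AC.GPS
import Pool.Agent.helper98.AC.MAIN
import Pool.Agent.helper67.AC.PA
import Pool.Agent.helper84.AC.PB
import Pool.Agent.helper13.AC.PC

/-! # Project ac: assembly of part 1 (all statements of Spec and Spec2) -/

set_option autoImplicit false

namespace Pool.Agent.helper34.AC

theorem a_MRK : MRK_stmt := MRK
theorem a_REC : REC_stmt := REC a_MRK
theorem a_POS : POS_stmt := POS
theorem a_RCN : RCN_stmt := RCN a_REC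
theorem a_CNE : CNE_stmt := CNE a_MRK
theorem a_DEC : DEC_stmt := DEC a_REC
theorem a_FM1 : FM1_stmt := FM1 a_CNE a_DEC
theorem a_FM2 : FM2_stmt := FM2 a_FM1
theorem a_TWO : TWO_stmt := TWO a_RCN a_DEC a_FM1
theorem a_SIZ : SIZ_stmt := SIZ
theorem a_ISO : ISO_stmt := ISO a_MRK a_REC
theorem a_CLQ : CLQ_stmt := CLQ
theorem a_BRC : BRC_stmt := BRC
theorem a_KUN : KUN_stmt := KUN a_ISO a_CLQ a_BRC
theorem a_LTW : LTW_stmt := LTW a_KUN a_BRC
theorem a_AVG : AVG_stmt := AVG a_POS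
theorem a_CHR : CHR_stmt := CHR a_POS
theorem a_WEX : WEX_stmt := WEX
theorem a_WDE : WDE_stmt := WDE a_WEX
theorem a_TAN : TAN_stmt := TAN a_WEX
theorem a_CUB : CUB_stmt := CUB a_WEX
theorem a_FIN : FIN_stmt := FIN a_WEX
theorem a_ST1 : ST1_stmt := ST1 a_WEX a_TAN a_CUB
theorem a_ST2 : ST2_stmt := ST2 a_WEX a_TAN a_FIN
theorem a_ULB : ULB_stmt := ULB a_BRC
theorem a_ULC : ULC_stmt := ULC a_BRC a_ULB
theorem a_LAM : LAM_stmt := LAM a_BRC a_ULC
theorem a_BLO : BLO_stmt := BLO a_BRC a_LAM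
theorem a_BUP : BUP_stmt := BUP a_BRC a_LAM
theorem a_GPS : GPS_stmt := GPS a_WEX a_BLO
theorem a_MAIN : MAIN_stmt := MAIN a_POS a_RCN a_FM2 a_TWO a_SIZ a_LTW a_WEX a_ST1 a_ST2 a_GPS
theorem a_PA : PA_stmt := PA a_AVG a_MAIN a_WEX a_BUP a_LTW a_BRC
theorem a_PB : PB_stmt := PB a_PA a_CHR a_BUP a_LTW
theorem a_PC : PC_stmt := PC a_PA a_CHR a_BUP a_LTW

end Pool.Agent.helper34.AC
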