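import Pool.Agent.helper34.AC.All1
import Pool.Agent.helper30.AC.BSZ
import Pool.Agent.helper99.AC.CUM
import Pool.Agent.helper40.AC.DLB
import Pool.Agent.helper77.AC.E1M
import Pool.Agent.helper29.AC.EPC
import Pool.Agent.helper13.AC.FMV
import Pool.Agent.helper81.AC.GRA
import Pool.Agent.helper52.AC.ISA
import Pool.Agent.helper62.AC.RLE
import Pool.Agent.helper46.AC.RTS
import Pool.Agent.helper53.AC.SAM
import Pool.Agent.helper55.AC.TOB
import Pool.Agent.helper24.AC.D23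
import Pool.Agent.helper92.AC.OMF
import Pool.Agent.helper63.AC.TAI
import Pool.Agent.helper37.AC.TAY
import Pool.Agent.helper65.AC.XLI
import Pool.Agent.helper8.AC.ASY
import Pool.Agent.helper64.AC.AN3
import Pool.Agent.helper11.AC.BMO
import Pool.Agent.helper62.AC.GAP
import Pool.Agent.helper78.AC.EFN
import Pool.Agent.helper92.AC.LUP
import Pool.Agent.helper31.AC.SLP
import Pool.Agent.helper2.AC.STR
import Pool.Agent.helper23.AC.TWS
import Pool.Agent.helper11.AC.STP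
import Pool.Agent.helper1.AC.T2S
import Pool.Agent.helper49.AC.OMS
import Pool.Agent.helper24.AC.ZER
import Pool.Agent.helper98.AC.DYL
import Pool.Agent.helper25.AC.GDP
import Pool.Agent.helper58.AC.ZST
import Pool.Agent.helper72.AC.CST

/-! # Project ac: assembly of part 2 (statements of Spec3 and Spec4) -/

set_option autoImplicit false

namespace Pool.Agent.helper34.AC

theorem a_BSZ : BSZ_stmt := BSZ a_REC a_RCN
theorem a_CUM : CUM_stmt := CUM
theorem a_DLB : DLB_stmt := DLB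
theorem a_E1M : E1M_stmt := E1M a_BRC
theorem a_EPC : EPC_stmt := EPC
theorem a_FMV : FMV_stmt := FMV a_REC a_DEC a_FM1 a_RCN
theorem a_GRA : GRA_stmt := GRA a_EPC
theorem a_ISA : ISA_stmt := ISA
theorem a_RLE : RLE_stmt := RLE
theorem a_RTS : RTS_stmt := RTS a_RLE
theorem a_SAM : SAM_stmt := SAM a_REC
theorem a_TOB : TOB_stmt := TOB a_BRC
theorem a_D23 : D23_stmt := D23 a_RTS a_TOB a_CUM a_BRC
theorem a_OMF : OMF_stmt := OMF a_ULB a_BLO a_BUP a_BRC a_D23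
theorem a_TAI : TAI_stmt := TAI a_FM2 a_RCN a_OMF
theorem a_TAY : TAY_stmt := TAY a_D23 a_OMF
theorem a_XLI : XLI_stmt := XLI a_D23 a_E1M a_OMF a_TAY
theorem a_ASY : ASY_stmt := ASY a_D23 a_OMF a_XLI
theorem a_AN3 : AN3_stmt := AN3 a_BUP a_BRC a_BLO a_OMF a_ASY a_XLI a_D23
theorem a_BMO : BMO_stmt := BMO a_OMF a_ASY
theorem a_GAP : GAP_stmt := GAP a_WEX a_TAN a_GPS a_BLO a_BUP a_BRC a_AN3
theorem a_EFN : EFN_stmt := EFN a_WEX a_GAP a_OMF a_ASY a_BMO a_D23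
theorem a_LUP : LUP_stmt := LUP a_LTW a_BRC a_LAM a_ASY a_OMF a_D23
theorem a_SLP : SLP_stmt := SLP a_TAY a_ASY a_OMF a_D23
theorem a_STR : STR_stmt := STR a_FM2 a_RCN a_E1M a_TAY a_ASY a_OMF a_XLI
theorem a_TWS : TWS_stmt := TWS a_TWO a_FM2 a_RCN a_SIZ a_SLP a_ASY
theorem a_STP : STP_stmt := STP a_TWS a_STR a_TAI a_RCN a_SIZ a_BMO a_ASY a_OMF
theorem a_T2S : T2S_stmt := T2S a_STP a_EFN a_MAIN a_LTW a_RCN a_POS a_ASY
theorem a_OMS : OMS_stmt := OMS a_T2S a_MAIN a_WEX a_OMF a_POS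
theorem a_ZER : ZER_stmt := ZER a_FM2 a_RCN a_OMF
theorem a_DYL : DYL_stmt := DYL a_FMV a_OMS a_BSZ a_SAM a_ZER a_DLB a_FM2 a_RCN a_SLP a_ASY a_OMF
theorem a_GDP : GDP_stmt := GDP a_OMS a_SAM a_ZER a_TAI a_OMF
theorem a_ZST : ZST_stmt := ZST a_T2S a_OMS a_STR a_TAI a_RCN a_MAIN a_GAP
theorem a_CST : CST_stmt := CST a_T2S a_OMS a_STR a_TAI a_ZST a_DYL a_GDP a_EPC a_RCN a_MAIN a_GAP a_ASY a_OMF a_D23

end Pool.Agent.helper34.AC
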