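import Pool.Agent.helper34.AC.All2
import Pool.Agent.helper46.AC.FCH

/-! # Project ac: the final theorem of part 2 -/

set_option autoImplicit false

namespace Pool.Agent.helper34.AC

theorem a_FCH : FCH_stmt := FCH a_CST a_GRA a_ISA a_LUP a_AVG a_EPC a_ASY

end Pool.Agent.helper34.AC
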