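import Mathlib

/-!
# Average number of colours over the non-equivalent colourings (MP_e0bd72_co): definitions

`col G U` is the set of partitions of the vertex set `U` into nonempty stable sets, `avg G` is the average number
of blocks over the partitions of the whole vertex set, `KU n r` is the graph `K_r ∪ (n-r) K_1` on `Fin n`.
-/

set_option autoImplicit false

namespace Pool.Agent.helper34.AC

/-- The set `S` of vertices is stable (independent). -/
def Stab {V : Type} (G : SimpleGraph V) (S : Finset V) : Prop := ∀ x ∈ S, ∀ y ∈ S, ¬ G.Adj x y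

/-- `P` is a partition of the vertex set `U` into nonempty stable sets. -/
def IsCol {V : Type} (G : SimpleGraph V) (U : Finset V) (P : Finset (Finset V)) : Prop :=
  (∀ S ∈ P, S.Nonempty ∧ S ⊆ U ∧ Stab G S) ∧ ∀ v ∈ U, ∃! S, S ∈ P ∧ v ∈ S

open Classical in
/-- The set of partitions of `U` into nonempty stable sets (the non-equivalent colourings of `G[U]`). -/
noncomputable def col {V : Type} (G : SimpleGraph V) (U : Finset V) : Finset (Finset (Finset V)) :=
  U.powerset.powerset.filter (fun P => IsCol G U P)

/-- The average number of colours over the non-equivalent colourings of `G`. -/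
noncomputable def avg {V : Type} [Fintype V] (G : SimpleGraph V) : ℝ :=
  (∑ P ∈ col G Finset.univ, (P.card : ℝ)) / ((col G Finset.univ).card : ℝ)

/-- The graph `K_r ∪ (n-r) K_1` on `Fin n`: the first `r` vertices form a clique. -/
def KU (n r : ℕ) : SimpleGraph (Fin n) where
  Adj x y := x ≠ y ∧ x.1 < r ∧ y.1 < r
  symm := ⟨fun _ _ h => ⟨h.1.symm, h.2.2, h.2.1⟩⟩
  loopless := ⟨fun _ h => h.1 rfl⟩

/-- `L_2(n,r)`, the average number of colours of `K_r ∪ (n-r) K_1`. -/
noncomputable def L2 (n r : ℕ) : ℝ := avg (KU n r)

/-- `L_1(n)`, the average number of colours of the graph without edges. -/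
noncomputable def L1 (n : ℕ) : ℝ := avg (⊥ : SimpleGraph (Fin n))

end Pool.Agent.helper34.AC
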