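import Pool.Agent.helper34.AC.Defs

/-!
# Project ac: (MP_e0bd72_co): working definitions and the modules of part 1

Module `XX` proves `theorem XX (hYY : YY_stmt) … : XX_stmt` in `Pool/Agent/<seat>/AC/XX.lean`, with
`import Pool.Agent.helper34.AC.Spec`, `set_option autoImplicit false`, `namespace Pool.Agent.helper34.AC`. Hypotheses: the
statements listed under `uses`, in this order. Auxiliary lemmas prefixed `XX_`. No `sorry`, no double quotes, no `#` commands in
the landed file. In the combinatorial part `V : Type` has `[DecidableEq V]` (all `insert`, `erase`, `\` use it); the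
predicates in `filter` are decided classically (inside the definitions); write `classical` in proofs if needed.
-/

set_option autoImplicit false

namespace Pool.Agent.helper34.AC

/-! ## Working definitions -/

/-- Number of partitions of `U` into stable sets. -/
noncomputable def N {V : Type} (G : SimpleGraph V) (U : Finset V) : ℝ := ((col G U).card : ℝ)

/-- `∑ (|P| + 1)` over the partitions of `U` into stable sets. -/
noncomputable def N1 {V : Type} (G : SimpleGraph V) (U : Finset V) : ℝ := ∑ P ∈ col G U, ((P.card : ℝ) + 1)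

open Classical in
/-- The sets `S ⊆ R` which are stable and have no edges to `X`. -/
noncomputable def st {V : Type} (G : SimpleGraph V) (X R : Finset V) : Finset (Finset V) :=
  R.powerset.filter (fun S => ∀ x ∈ S, (∀ y ∈ S, ¬ G.Adj x y) ∧ ∀ y ∈ X, ¬ G.Adj x y)

/-- `M_k(X,R) = ∑ (|S|)_k N(R \ S)` over the sets `S` of `st G X R`. -/
noncomputable def Mk {V : Type} [DecidableEq V] (G : SimpleGraph V) (X R : Finset V) (k : ℕ) : ℝ :=
  ∑ S ∈ st G X R, (S.card.descFactorial k : ℝ) * N G (R \ S)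

/-- `ω` bounds `|U| N(U) / N1(U)` on all subsets of `R`. -/
def Om {V : Type} (G : SimpleGraph V) (R : Finset V) (w : ℕ → ℝ) : Prop :=
  ∀ U : Finset V, U ⊆ R → (U.card : ℝ) * N G U ≤ w U.card * N1 G U

/-- Bell numbers as real numbers. -/
noncomputable def bl (n : ℕ) : ℝ := (Nat.bell n : ℝ)

/-- `F_m(z) = ∑ C(m,k) z^(m-k) B_k` (`z^0 = 1`). -/
noncomputable def F (m : ℕ) (z : ℝ) : ℝ := ∑ k ∈ Finset.range (m + 1), (m.choose k : ℝ) * z ^ (m - k) * bl k

/-- The quotient of Bell numbers `B_(n+1)/B_n`. -/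
noncomputable def gb (n : ℕ) : ℝ := bl (n + 1) / bl n

/-! ## Part 1: partitions into stable sets -/

/-- **MRK** (short/medium). Partitions with a marked block. uses: nothing.
Proof. `P ↦ P.erase S` is a bijection from the partitions of `U` containing the block `S` to the partitions of `U \ S`, the inverse
is `P' ↦ insert S P'` (`Finset.sum_bij'`; the blocks of `P'` are nonempty subsets of `U \ S`, so `S ∉ P'`; the blocks of `P` other than `S` are disjoint from `S`
because the block of a vertex is unique). -/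
def MRK_stmt : Prop := ∀ (V : Type) [DecidableEq V] (G : SimpleGraph V) (U S : Finset V) (f : Finset (Finset V) → ℝ),
  S ⊆ U → S.Nonempty → Stab G S →
  ∑ P ∈ (col G U).filter (fun P => S ∈ P), f P = ∑ P ∈ col G (U \ S), f (insert S P)

/-- **REC** (medium). Sum over the block `insert v S` of a vertex `v`. uses: MRK.
Proof. Every partition of `U` contains exactly one block containing `v`, of the form `insert v S` with `S ⊆ U.erase v`, `S` stable and without
neighbours of `v` (`Finset.sum_fiberwise` type argument or `Finset.sum_biUnion`); apply MRK to each block, `U \ insert v S = U.erase v \ S`. -/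
def REC_stmt : Prop := ∀ (V : Type) [DecidableEq V] (G : SimpleGraph V) (U : Finset V) (v : V)
  (f : Finset (Finset V) → ℝ), v ∈ U →
  ∑ P ∈ col G U, f P = ∑ S ∈ st G {v} (U.erase v), ∑ P ∈ col G (U.erase v \ S), f (insert (insert v S) P)

/-- **POS** (short). uses: nothing.
Proof. The partition of `U` into singletons shows `1 ≤ |col G U|`. The only partition of `∅` is `∅`. `N ≤ N1 ≤ (|U| + 1) N`: a partition of `U` has
at most `|U|` blocks (choose an element of every block; the blocks are disjoint). -/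
def POS_stmt : Prop := ∀ (V : Type) [DecidableEq V] (G : SimpleGraph V) (U : Finset V),
  1 ≤ N G U ∧ col G ∅ = {∅} ∧ N G U ≤ N1 G U ∧ N1 G U ≤ ((U.card : ℝ) + 1) * N G U ∧ ∀ P ∈ col G U, P.card ≤ U.card

/-- **RCN** (short). The recursion for `N` and `N1`. uses: REC.
Proof. REC with `f = 1` and `f P = |P| + 1`: `|insert (insert v S) P| = |P| + 1` as `insert v S ∉ P` (`v` is not in any block of `P`).
`descFactorial 0 = 1`. -/
def RCN_stmt : Prop := ∀ (V : Type) [DecidableEq V] (G : SimpleGraph V) (U : Finset V) (v : V), v ∈ U →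
  N G U = Mk G {v} (U.erase v) 0 ∧
  (∀ f : ℕ → ℝ, ∑ P ∈ col G U, f P.card = ∑ S ∈ st G {v} (U.erase v), ∑ P ∈ col G (U.erase v \ S), f (P.card + 1)) ∧
  N1 G U = N G U + ∑ S ∈ st G {v} (U.erase v), N1 G (U.erase v \ S)

/-- **CNE** (medium). Counting pairs (partition, block). uses: MRK.
Proof. For every function `h` of the block: `∑_P ∑_(S ∈ P) h S = ∑_(S ⊆ U stable nonempty) h S * |{P : S ∈ P}| = ∑_S h S * N(U \ S)` (MRK with
`f = 1`). With `h = 1`, adding the term `S = ∅` (`N(U)`): `N1 U = M_0(∅,U)`. With `h S = |S|` and `∑_(S ∈ P) |S| = |U|`: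
`|U| N U = M_1(∅,U)`. -/
def CNE_stmt : Prop := ∀ (V : Type) [DecidableEq V] (G : SimpleGraph V) (U : Finset V),
  N1 G U = Mk G ∅ U 0 ∧ (U.card : ℝ) * N G U = Mk G ∅ U 1

/-- **DEC** (medium). Removing the block of a forbidden vertex `y`. uses: REC (or RCN).
Proof. No `S` in `st G X R` contains `y`. So `y ∈ R \ S` and `N(R \ S) = ∑_Q N((R \ S).erase y \ Q)` over `Q ∈ st G {y} ((R \ S).erase y)`. The pairs
`(S, Q)` with `S ∈ st G X R`, `Q ∈ st G {y} ((R \ S).erase y)` are the pairs `Q ∈ st G {y} (R.erase y)`,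
`S ∈ st G X (R.erase y \ Q)` (`Finset.sum_comm'`), and `(R \ S).erase y \ Q = (R.erase y \ Q) \ S`. -/
def DEC_stmt : Prop := ∀ (V : Type) [DecidableEq V] (G : SimpleGraph V) (X R : Finset V) (y x : V) (k : ℕ),
  y ∈ R → x ∈ X → G.Adj x y →
  Mk G X R k = ∑ Q ∈ st G {y} (R.erase y), Mk G X (R.erase y \ Q) k

/-- **FM1** (medium). uses: CNE, DEC.
Proof. Strong induction on `|R|`. If some `y ∈ R` is adjacent to some `x ∈ X`: DEC, the induction hypothesis for `R.erase y \ Q` (of smaller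
cardinality) and monotonicity of `w` (and `M_0 ≥ 0`). Otherwise `st G X R = st G ∅ R`, so `M_k(X,R) = M_k(∅,R)`, and the claim is the hypothesis for `U = R` by
CNE. -/
def FM1_stmt : Prop := ∀ (V : Type) [DecidableEq V] (G : SimpleGraph V) (X R : Finset V) (w : ℕ → ℝ),
  Monotone w → Om G R w → Mk G X R 1 ≤ w R.card * Mk G X R 0

/-- **FM2** (medium). uses: FM1.
Proof. Identity: `M_(k+1)(X,R) = ∑ M_k(insert x X, R.erase x)` over the `x ∈ R` without neighbours in `X`: both sides are the sum over `S ∈ st G X R` and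
`x ∈ S` of `(|S| - 1)_k N(R \ S)` (`(|S|)_(k+1) = |S| (|S|-1)_k`; `S = insert x S'`, `R \ S = R.erase x \ S'`). Induction on `k`: `k = 0` is FM1;
`M_(k+2)(X,R) = ∑ M_(k+1)(insert x X, R.erase x) ≤ ∑ w(|R|-1) M_k(insert x X, R.erase x) ≤ w(|R|) M_(k+1)(X,R)`. -/
def FM2_stmt : Prop := ∀ (V : Type) [DecidableEq V] (G : SimpleGraph V) (X R : Finset V) (w : ℕ → ℝ) (k : ℕ),
  Monotone w → Om G R w → Mk G X R (k + 1) ≤ w R.card * Mk G X R k

/-- **TWO** (medium). The blocks of the two ends of an edge. uses: RCN, DEC, FM1.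
Proof. `m = |U| - 1`, `R = U.erase w`, `v ∈ R`. DEC (`X = {w}`, `y = v`): `M_1({w},R) = ∑_Q M_1({w}, R.erase v \ Q)` over `Q ∈ st G {v} (R.erase v)`, and FM1:
`M_1({w}, R.erase v \ Q) ≤ w(|R.erase v \ Q|) M_0({w}, R.erase v \ Q)`, `|R.erase v \ Q| = |U| - 2 - |Q|`, and
`M_0({w}, R.erase v \ Q) = N(U.erase v \ Q)` (RCN, first part, for the vertex `w` of `U.erase v \ Q`). Finally `st G {v} (R.erase v) = st G {v} (U.erase v)`
because `w` is adjacent to `v`. -/
def TWO_stmt : Prop := ∀ (V : Type) [DecidableEq V] (G : SimpleGraph V) (U : Finset V) (v w : V) (o : ℕ → ℝ),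
  v ∈ U → w ∈ U → G.Adj v w → Monotone o → Om G (U.erase w) o →
  Mk G {w} (U.erase w) 1 ≤ ∑ S ∈ st G {v} (U.erase v), o (U.card - 2 - S.card) * N G (U.erase v \ S)

/-- **SIZ** (short). The sets `S` of `st G {v} (U.erase v)` miss the neighbour `w` of `v`. uses: nothing. -/
def SIZ_stmt : Prop := ∀ (V : Type) [DecidableEq V] (G : SimpleGraph V) (U : Finset V) (v w : V),
  v ∈ U → w ∈ U → G.Adj v w → ∀ S ∈ st G {v} (U.erase v), S.card + 2 ≤ U.card ∧ w ∉ S ∧
    (U.erase v \ S).card + S.card + 1 = U.card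

/-- **ISO** (medium). Adding an isolated vertex. uses: REC.
Proof. REC for `v = x`: `st G {x} U` is the set of the stable `S ⊆ U`; for `S = ∅` the term is `∑_(P ∈ col G U) f(|P|+1)`, for `S ≠ ∅` the terms are
(MRK, or directly) `∑_(P ∈ col G (U \ S)) f(|P|+1) = ∑_(P ∈ col G U, S ∈ P) f(|P|)`, and `∑_S ∑_(P ∋ S) f(|P|) = ∑_P |P| f(|P|)`. You may use MRK also
(`hMRK : MRK_stmt` as first hypothesis is allowed: uses: MRK, REC). -/
def ISO_stmt : Prop := ∀ (V : Type) [DecidableEq V] (G : SimpleGraph V) (U : Finset V) (x : V) (f : ℕ → ℝ),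
  x ∉ U → (∀ u ∈ U, ¬ G.Adj x u) →
  ∑ P ∈ col G (insert x U), f P.card = ∑ P ∈ col G U, ((P.card : ℝ) * f P.card + f (P.card + 1))

/-- **CLQ** (short). The only partition of a clique `U` into stable sets is the one into singletons. uses: nothing. -/
def CLQ_stmt : Prop := ∀ (V : Type) [DecidableEq V] (G : SimpleGraph V) (U : Finset V) (f : ℕ → ℝ),
  (∀ x ∈ U, ∀ y ∈ U, x ≠ y → G.Adj x y) → ∑ P ∈ col G U, f P.card = f U.card

/-- **BRC** (medium). Recursion for `F`. uses: nothing.
Proof. `F_(m+1)(z) - z F_m(z) = ∑_(k ≥ 1) C(m,k-1) z^(m+1-k) B_k = ∑_j C(m,j) z^(m-j) B_(j+1)` (Pascal) and `F_m(z+1) = ∑_j C(m,j) z^(m-j) ∑_i C(j,i) B_i =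
∑_j C(m,j) z^(m-j) B_(j+1)` (binomial theorem for `(z+1)^(m-k)`, `C(m,k) C(m-k,i) = C(m,j) C(j,k)` with `j = k + i`, `Nat.bell_succ`). At `z = 0` only the term `k = m`
remains. `F_m(1) = B_(m+1)` is `Nat.bell_succ`. Derivative term by term: `(m-k) C(m,k) = m C(m-1,k)`. -/
def BRC_stmt : Prop := (∀ z : ℝ, F 0 z = 1) ∧ (∀ (m : ℕ) (z : ℝ), F (m + 1) z = z * F m z + F m (z + 1)) ∧
  (∀ m : ℕ, F m 0 = bl m) ∧ (∀ m : ℕ, F m 1 = bl (m + 1)) ∧ (∀ (m : ℕ) (z : ℝ), 0 ≤ z → 0 < F m z) ∧
  (∀ m : ℕ, 0 < bl m) ∧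
  ∀ (m : ℕ) (z : ℝ), HasDerivAt (fun t => F (m + 1) t) (((m : ℝ) + 1) * F m z) z

/-- **KUN** (medium). The graph `K_r` with `m` isolated vertices inside any graph. uses: ISO, CLQ, BRC.
Proof. Induction on `|I|` (generalizing `f`): the statement for `I` is that for every `f`: `∑_(P ∈ col G (C ∪ I)) f(|P|) = (L^|I| f)(|C|)` with
`(L f)(k) = k f(k) + f(k+1)` (ISO, CLQ); with `f = 1`, `L^m 1 (k) = F_m(k)` by the recursion in BRC, and `f(k) = k + 1 = F_1(k)`, so `L^m f = F_(m+1)`. -/
def KUN_stmt : Prop := ∀ (V : Type) [DecidableEq V] (G : SimpleGraph V) (C I : Finset V),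
  Disjoint C I → (∀ x ∈ C, ∀ y ∈ C, x ≠ y → G.Adj x y) → (∀ x ∈ I, ∀ y ∈ C ∪ I, ¬ G.Adj x y) →
  N G (C ∪ I) = F I.card C.card ∧ N1 G (C ∪ I) = F (I.card + 1) C.card

/-- **LTW** (short/medium). `L_2(n,r)` and `L_1(n)` by means of `F`. uses: KUN, BRC.
Proof. KUN for `G = KU n r`, `C` the first `r` vertices, `I` the others, and for `⊥` with `C = ∅`; `avg + 1 = N1/N` as `N > 0`. -/
def LTW_stmt : Prop := (∀ n r : ℕ, r ≤ n → L2 n r + 1 = F (n - r + 1) r / F (n - r) r) ∧
  (∀ n : ℕ, L1 n + 1 = gb n) ∧ ∀ (V : Type) [DecidableEq V] (G : SimpleGraph V) (U : Finset V), Stab G U →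
    N1 G U = gb U.card * N G U

/-- **AVG** (short). uses: POS. `avg G + 1 = N1/N` for the whole vertex set. -/
def AVG_stmt : Prop := ∀ (V : Type) [Fintype V] [DecidableEq V] (G : SimpleGraph V),
  0 < N G Finset.univ ∧ (avg G + 1) * N G Finset.univ = N1 G Finset.univ ∧ 0 ≤ avg G

/-- **CHR** (medium). The average is at least the chromatic number. uses: POS.
Proof. A partition of the vertex set with `k` blocks gives a colouring with `k` colours (colour a vertex by its block, a type with `k` elements), so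
`G.chromaticNumber ≤ |P|` for every `P` (`SimpleGraph.Coloring.colorable`, `SimpleGraph.chromaticNumber_le_of_colorable` or similar). -/
def CHR_stmt : Prop := ∀ (V : Type) [Fintype V] [DecidableEq V] (G : SimpleGraph V) (r : ℕ),
  (r : ℕ∞) ≤ G.chromaticNumber → (r : ℝ) ≤ avg G ∧ r ≤ Fintype.card V

end Pool.Agent.helper34.AC
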