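import Pool.Agent.helper34.AC.Spec

/-!
# Project ac: (MP_e0bd72_co), part 2: the function `W`, Bell numbers, the main inequality and its corollaries

Same rules as in `Spec.lean`, with `import Pool.Agent.helper34.AC.Spec2`.
-/

set_option autoImplicit false

namespace Pool.Agent.helper34.AC

/-! ## Part 2: the Lambert function -/

/-- `W x` is the solution `w ≥ 0` of `w e^w = x` (`x ≥ 0`). -/
noncomputable def W (x : ℝ) : ℝ := Classical.epsilon (fun w => 0 ≤ w ∧ w * Real.exp w = x)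

/-- `psi x = e^(W x)`, so `psi x * log (psi x) = x`. -/
noncomputable def psi (x : ℝ) : ℝ := Real.exp (W x)

/-- The threshold of the induction step. -/
noncomputable def tau (m : ℝ) : ℝ :=
  W m - W m * (1 / (2 * psi m * (1 + W m)) + (1 + W m) * (W m ^ 2 + 3 * W m + 1) / (12 * m ^ 2))

/-- **WEX** (short). uses: nothing. Existence (intermediate value theorem: `w e^w` is continuous, `0` at `0`, `≥ w`) and uniqueness (`w ↦ w e^w` is strictly increasing on `[0,∞)`), monotonicity of `W`. -/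
def WEX_stmt : Prop := (∀ x : ℝ, 0 ≤ x → 0 ≤ W x ∧ W x * Real.exp (W x) = x) ∧
  (∀ w : ℝ, 0 ≤ w → W (w * Real.exp w) = w) ∧ (∀ x y : ℝ, 0 ≤ x → x ≤ y → W x ≤ W y) ∧ (∀ x : ℝ, 0 < x → 0 < W x) ∧
  psi 0 = 1

/-- **WDE** (medium). uses: WEX.
Proof. `W` is the inverse of `h(w) = w e^w`, `h' = (1 + w) e^w > 0`; `W` is continuous at `x > 0` (monotone with dense image, or directly from strict
monotonicity of `h`); `HasDerivAt.of_local_left_inverse`. -/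
def WDE_stmt : Prop := ∀ x : ℝ, 0 < x → HasDerivAt W (1 / ((1 + W x) * Real.exp (W x))) x

/-- **TAN** (short). Tangent lines (`psi` and `W` are concave). uses: WEX.
Proof. `r = W x`, `s = W y`, `x = r e^r`, `y = s e^s`. First: `(1+r)(e^s - e^r) ≤ s e^s - r e^r` iff `1 + (r - s) ≤ e^(r-s)`. Second:
`(s-r)(1+r)e^r ≤ s e^s - r e^r` iff `s + r (s - r) ≤ s e^(s-r)`, and `s e^(s-r) ≥ s (1 + s - r)`. -/
def TAN_stmt : Prop := ∀ x y : ℝ, 0 ≤ x → 0 ≤ y → psi y ≤ psi x + (y - x) / (1 + W x) ∧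
  W y ≤ W x + (y - x) / ((1 + W x) * psi x)

/-- **CUB** (LONG). Third order lower bound for `psi (m - t)`. uses: WEX, WDE.
Proof. `r = W m`, `P = psi m`. Let `Q(t) = (m-t) log((m-t)/m) + t - t²/(2m)`; with `u = t/m`: `Q(t) = m ((1-u) log(1-u) + u - u²/2) ≤ m u³/2 = t³/(2m²)`
because `log(1-u) ≤ -u - u²/2` (`(1-u)(-u-u²/2) + u - u²/2 = u³/2`). Let
`f(t) = psi(m-t) - P + t/(1+r) + t²/(2P(1+r)³) + Q(t)/6` on `[0,m)`. `psi' = 1/(1+W)`, so `f'(t) = -1/(1+W(m-t)) + 1/(1+r) + t/(P(1+r)³) + (-log((m-t)/m) - t/m)/6`,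
`f''(t) = v(m) - v(m-t)` with `v(x) = 1/(psi(x) (1+W x)³) - 1/(6x)`. In terms of `w = W x`: `v = e^(-w) ((1+w)^(-3) - 1/(6w))`, with derivative
`e^(-w) ((1+w)/(6w²) - (4+w)/(1+w)^4) ≥ 0` because `(1+w)^5 - 6w²(4+w) = 1 + 5w - 14w² + 4w³ + 5w⁴ + w⁵ > 0` for `w > 0`. So `v` is nondecreasing, `f'' ≥ 0`, `f'(0) = 0`, `f(0) = 0`, so `f' ≥ 0`
and `f ≥ 0` on `[0,m)`. -/
def CUB_stmt : Prop := ∀ m t : ℝ, 0 < m → 0 ≤ t → t < m →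
  psi m - t / (1 + W m) - t ^ 2 / (2 * psi m * (1 + W m) ^ 3) - t ^ 3 / (12 * m ^ 2) ≤ psi (m - t)

/-- **FIN** (medium). uses: WEX.
Proof. `r = W m`, `m = r e^r ≥ 1`, `p = r² + 3r + 1`. `r ≥ 0.56` because `0.56 e^0.56 < 1`. Let `θ = W m - tau m`: `θ = r/(2 psi m (1+r)) + r (1+r) p/(12 m²)`
and `r/(2 psi m (1+r)) = r/(2 e^r (1+r)) ≤ r/(2(1+r)²)`, `m ≥ r (1 + r + r²/2)`, so `θ/r ≤ 1/(2(1+r)²) + (1+r) p/(12 r² (1+r+r²/2)²) ≤ 1` for `r ≥ 0.56`. So `tau m ≥ 0`. By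
convexity of `x e^x` on `[0,∞)` (`s e^s ≥ r e^r + (s-r)(1+r)e^r`) `τ e^τ ≥ m - θ (1+r) e^r = m - r/2 - (1+r)² p/(12 m)`. So it is enough that
`(1+r)² p/(12 m) + θ ≤ 1 + r/2`. With `m ≥ r (1+r+r²/2+r³/6)`: `(1+r)² p/(12 m) ≤ 0.66` for `r ≥ 0.56` (polynomial inequality), `r/(2(1+r)²) ≤ 1/8`,
`(1+r) p/(12 r (1+r+r²/2)²) ≤ 0.24`. -/
def FIN_stmt : Prop := ∀ m : ℝ, 1 ≤ m → 0 ≤ tau m ∧ m - 1 ≤ tau m + tau m * Real.exp (tau m)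

/-- **ST1** (medium). uses: WEX, TAN, CUB.
Proof. `r = W m > 0`, `P = psi m = m/r`, `μ = ∑ p t`. CUB for every `t i` (`t i ≤ m - 1 < m`), weighted sum:
`∑ p psi(m-t) ≥ P - μ/(1+r) - (1+r) μ/(2P(1+r)³) - (r²+3r+1) μ/(12m²)`. TAN: `psi(m+1) ≤ P + 1/(1+r)`. It remains that
`μ (1/(1+r) + 1/(2P(1+r)²) + (r²+3r+1)/(12m²)) ≤ r/(1+r)`; multiply by `1+r`: `μ (1 + θ/r) ≤ r` with `θ = r - tau m`
(`θ/r = 1/(2P(1+r)) + (1+r)(r²+3r+1)/(12m²)`), and `μ ≤ r - θ`, `(r-θ)(1+θ/r) = r - θ²/r ≤ r` (`μ ≥ 0`). -/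
def ST1_stmt : Prop := ∀ (ι : Type) (s : Finset ι) (p t : ι → ℝ) (m : ℝ), 1 ≤ m → (∀ i ∈ s, 0 ≤ p i) →
  ∑ i ∈ s, p i = 1 → (∀ i ∈ s, 0 ≤ t i ∧ t i ≤ m - 1) →
  ∑ i ∈ s, p i * t i ^ 2 ≤ (1 + W m) * ∑ i ∈ s, p i * t i →
  ∑ i ∈ s, p i * t i ^ 3 ≤ (W m ^ 2 + 3 * W m + 1) * ∑ i ∈ s, p i * t i →
  ∑ i ∈ s, p i * t i ≤ tau m → psi (m + 1) ≤ 1 + ∑ i ∈ s, p i * psi (m - t i)

/-- **ST2** (short). uses: WEX, TAN, FIN.
Proof. `μ = ∑ p t`, `τ = tau m < μ ≤ m - 1`. TAN at `x = m - 1 - μ ≥ 0`: `∑ p W(m-1-t) ≤ W(m-1-μ)` (the linear term vanishes), `≤ W(m-1-τ) ≤ W(τ e^τ) = τ`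
by FIN and monotonicity (`0 ≤ m-1-τ ≤ τ e^τ`). -/
def ST2_stmt : Prop := ∀ (ι : Type) (s : Finset ι) (p t : ι → ℝ) (m : ℝ), 1 ≤ m → (∀ i ∈ s, 0 ≤ p i) →
  ∑ i ∈ s, p i = 1 → (∀ i ∈ s, 0 ≤ t i ∧ t i ≤ m - 1) → tau m < ∑ i ∈ s, p i * t i →
  ∑ i ∈ s, p i * W (m - 1 - t i) ≤ tau m

/-! ## Part 3: Bell numbers -/

/-- `lm m z = (m+1) F_m(z) / F_(m+1)(z)`, the logarithmic derivative of `F_(m+1)`. -/
noncomputable def lm (m : ℕ) (z : ℝ) : ℝ := ((m : ℝ) + 1) * F m z / F (m + 1) z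

/-- **ULB** (medium). `B_n/n!` is log-concave. uses: BRC.
Proof. Write `b_(n+1) = ∑_j C(n,j) b_(n-j) = b_n + n ∑_(k<n) C(n-1,k) b_(n-1-k)/(k+1)` (`C(n,k+1) = n/(k+1) C(n-1,k)`). For `n ≥ 1` let `P_n(k) = C(n-1,k) b_(n-1-k)`, `∑_(k<n) P_n(k) = b_n`,
`E_n = (∑ P_n(k)/(k+1))/b_n`, so `b_(n+1)/b_n = 1 + n E_n`, `0 < E_n ≤ 1`. Strong induction; the claim for `n+1` in place of `n` (`n ≥ 1`) is
`(n+1) b_(n+2)/b_(n+1) ≤ (n+2) b_(n+1)/b_n`, i.e. `(n+1)(1 + (n+1) E_(n+1)) ≤ (n+2)(1 + n E_n)`, i.e. `(n+1)² E_(n+1) - n(n+2) E_n ≤ 1`, which follows from `E_(n+1) ≤ E_n ≤ 1`. To see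
`E_(n+1) ≤ E_n`: for `l < k ≤ n-1` `P_(n+1)(k) P_n(l) ≥ P_(n+1)(l) P_n(k)` (the quotient `P_(n+1)(k)/P_n(k) = n/(n-k) * b_(n-k)/b_(n-1-k)` is nondecreasing in `k`, by
the induction hypothesis `j b_(j-1) b_(j+1) ≤ (j+1) b_j²` for `j ≤ n - 1`), and for `k = n` (`P_n(n) = 0`) trivially; so
`∑_(k,l) (P_(n+1)(k) P_n(l) - P_(n+1)(l) P_n(k)) (1/(k+1) - 1/(l+1)) ≤ 0`, which is `2 b_(n+1) b_n (E_(n+1) - E_n) ≤ 0`. The case `n = 0`: `b_0 b_2 = 2 ≤ 2`. -/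
def ULB_stmt : Prop := ∀ n : ℕ, ((n : ℝ) + 1) * (bl n * bl (n + 2)) ≤ ((n : ℝ) + 2) * bl (n + 1) ^ 2

/-- **ULC** (medium). The same for `F_n(z)`, `z ≥ 0`. uses: BRC, ULB.
Proof. Induction on `n`. `n = 0`: `F_0 = 1`, `F_1 = z + 1`, `F_2 = z² + 2z + 2`. Step: let `D(z) = (n+3) F_(n+2) - (n+2) F_(n+3) F_(n+1)/F_(n+2)` on `z ≥ 0`. `D(0) ≥ 0` by ULB. With `F_j' = j F_(j-1)`
the derivative is `D' = (n+2) F_(n+3) ((n+2) F_(n+1)² - (n+1) F_n F_(n+2))/F_(n+2)²`, which is `≥ 0` by the induction hypothesis. So `D ≥ 0` on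
`[0,∞)` (`monotoneOn_of_deriv_nonneg` or similar). -/
def ULC_stmt : Prop := ∀ (n : ℕ) (z : ℝ), 0 ≤ z → ((n : ℝ) + 1) * (F n z * F (n + 2) z) ≤ ((n : ℝ) + 2) * F (n + 1) z ^ 2

/-- **LAM** (medium). uses: BRC, ULC.
Proof. `lm m` is the derivative of `log F_(m+1)`. `lm m ≤ lm (m+1)` is ULC. `(lm (m+1))' = lm (m+1) (lm m - lm (m+1)) ≤ 0` and `lm 0 = 1/(z+1)`. The last part is the mean
value theorem for `log F_(m+1)` on `[z, z+1]`. -/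
def LAM_stmt : Prop := (∀ (m : ℕ) (z z' : ℝ), 0 ≤ z → z ≤ z' → lm m z' ≤ lm m z) ∧
  (∀ (m : ℕ) (z : ℝ), 0 ≤ z → lm m z ≤ lm (m + 1) z) ∧
  (∀ (m : ℕ) (z : ℝ), 0 ≤ z → ∃ x ∈ Set.Icc z (z + 1), Real.log (F (m + 1) (z + 1) / F (m + 1) z) = lm m x)

/-- **BLO** (short). uses: BRC, LAM.
Proof. `n = 0`: `gb 0 = 1`. `n = m+1`: `gb n = F_n(1)/F_n(0)`, `log (gb n) = lm m ξ ≥ lm m 1 = n b_n/b_(n+1) = n/gb n`. `gb n ≥ 1` as `F_n(1) ≥ F_n(0)`. -/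
def BLO_stmt : Prop := ∀ n : ℕ, 1 ≤ gb n ∧ (n : ℝ) ≤ gb n * Real.log (gb n)

/-- **BUP** (short). uses: BRC, LAM.
Proof. `Z = F_(m+1)(z)/F_m(z)`, `Z - z = F_m(z+1)/F_m(z)`. `m = 0`: `Z - z = 1`. `m = k+1`: `log(Z - z) = lm k ξ ≤ lm k z ≤ lm (k+1) z = (m+1) F_m(z)/F_(m+1)(z) = (m+1)/Z`. -/
def BUP_stmt : Prop := ∀ (m : ℕ) (z : ℝ), 0 ≤ z → z + 1 ≤ F (m + 1) z / F m z ∧
  F (m + 1) z / F m z * Real.log (F (m + 1) z / F m z - z) ≤ (m : ℝ) + 1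

/-- **GPS** (short). uses: WEX, BLO. `gb n ≥ psi n` (`t ↦ t log t` is strictly increasing on `[1,∞)` and `psi n * log (psi n) = n`). -/
def GPS_stmt : Prop := ∀ n : ℕ, psi n ≤ gb n

/-! ## Part 4: the main inequality and its corollaries -/

/-- **MAIN** (LONG). uses: POS, RCN, FM2, TWO, SIZ, LTW, WEX, ST1, ST2, GPS.
Proof. Strong induction on `|U|`. `U = ∅`: `N = N1 = 1`, `psi 0 = 1`. `U` stable: `N1 U = gb |U| * N U` (LTW) and GPS. Otherwise let `v, w ∈ U` be adjacent, `m = |U| - 1 ≥ 1`. By the induction hypothesis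
`Om G R W` for all `R ⊂ U` (`|U'| N(U') = W psi N(U') ≤ W N1(U')`), `k ↦ W k` is monotone. For `a = v` or `a = w` take `s = st G {a} (U.erase a)`, `p S = N(U.erase a \ S)/N(U)`, `t S = |S| ≤ m - 1` (SIZ): `∑ p = 1` (RCN),
`∑ p t = M_1/N(U)`, `∑ p t² = (M_2 + M_1)/N(U) ≤ (1 + W m) M_1/N(U)`, `∑ p t³ = (M_3 + 3 M_2 + M_1)/N(U) ≤ (W² + 3W + 1) M_1/N(U)` (FM2 with `X = {a}`, `R = U.erase a`). If `∑ p t ≤ tau m` then by RCN and the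
induction hypothesis `N1(U) = N(U) + ∑ N1(U.erase a \ S) ≥ N(U) (1 + ∑ p psi(m - t)) ≥ psi(m+1) N(U)` (ST1). If this fails for `a = v`, then ST2 and TWO (`|U| - 2 - |S| = m - 1 - |S|`)
give `M_1({w}, U.erase w) ≤ tau m * N(U)`, so it holds for `a = w`. -/
def MAIN_stmt : Prop := ∀ (V : Type) [DecidableEq V] (G : SimpleGraph V) (U : Finset V),
  psi U.card * N G U ≤ N1 G U

/-- **PA** (short). uses: AVG, MAIN, WEX, BUP, LTW.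
Proof. `a = avg G + 1 ≥ psi n`, so `a log a ≥ psi n * log (psi n) = n`. `g = gb n = L1 n + 1`: `g log g ≤ n + 1` (BUP with `z = 0`, `F_m(0) = b_m`: use `F` at `0` from LTW or BRC;
you may add the hypothesis `hBRC : BRC_stmt` at the end). Convexity of `x log x`: `g log g ≥ a log a + (g - a)(1 + log a)`, so `(g - a)(1 + log a) ≤ 1`. -/
def PA_stmt : Prop := ∀ (V : Type) [Fintype V] (G : SimpleGraph V),
  (Fintype.card V : ℝ) ≤ (avg G + 1) * Real.log (avg G + 1) ∧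
  L1 (Fintype.card V) - 1 / (1 + Real.log (avg G + 1)) ≤ avg G

/-- **PB** (medium). uses: PA, CHR, BUP, LTW.
Proof. `e ≤ 1` w.l.o.g. (for `e ≥ 1` the left side is `≤ 0`). `η = e/2`, `a = avg G + 1`, `Z = L2 n r + 1 = F_(m+1)(r)/F_m(r)`, `m = n - r`, `avg G ≥ r` and `avg G ≥ 1` (CHR; `n ≥ 1`). Claim: `Z ≤ (1+η) a` for `n` large; then
`L2 = Z - 1 ≤ (1+η) avg G + η ≤ (1+e) avg G`, and `(1-e)(1+e) ≤ 1`. If `Z ≤ (1+η) r` the claim is clear. Otherwise `Z - r ≥ c Z`, `c = η/(1+η)`, and by BUP `Z log(cZ) ≤ n + 1 ≤ a log a + 1` (PA). If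
`Z > (1+η) a` and `η a ≥ 1` then `Z log(cZ) ≥ (1+η) a log(η a)`, so `η log a ≤ 1/a + (1+η) log(1/η)`, which is false for `a` large; `a` is large with `n` because `a log a ≥ n`. -/
def PB_stmt : Prop := ∀ e : ℝ, 0 < e → ∃ n0 : ℕ, ∀ (V : Type) [Fintype V] (G : SimpleGraph V) (r : ℕ),
  n0 ≤ Fintype.card V → (r : ℕ∞) = G.chromaticNumber → (1 - e) * L2 (Fintype.card V) r ≤ avg G

/-- **PC** (medium). uses: PA, CHR, BUP, LTW.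
Proof. `a, Z, m` as in PB, `n = |V|`. If `Z ≤ a` nothing is to be shown. Let `Z > a`. For `n` large `a` is large (`a log a ≥ n`), so `e n ≤ e a log a ≤ a²` and `r ≤ √(e n)/2 ≤ a/2 < Z/2`. `-log(1-u) ≤ u + u²` for
`0 ≤ u ≤ 1/2`, so BUP gives `Z log Z ≤ n - r + 1 + r + r²/Z ≤ n + 1 + r²/a`. Convexity of `x log x` and PA: `(Z - a)(1 + log a) ≤ 1 + r²/a ≤ 1 + (e/4) n/a ≤ 1 + (e/4) log a`, and this is
`≤ e (1 + log a)` as soon as `log a ≥ 4/(3e)`. -/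
def PC_stmt : Prop := ∀ e : ℝ, 0 < e → ∃ n0 : ℕ, ∀ (V : Type) [Fintype V] (G : SimpleGraph V) (r : ℕ),
  n0 ≤ Fintype.card V → (r : ℕ∞) = G.chromaticNumber → (r : ℝ) ^ 2 ≤ e / 4 * (Fintype.card V : ℝ) →
  L2 (Fintype.card V) r - e ≤ avg G

end Pool.Agent.helper34.AC
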