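import Pool.Agent.helper34.AC.Spec2

/-!
# Project ac: (MP_e0bd72_co), part 5: regularity of the quotients of Bell numbers

Same rules as in `Spec.lean`, with `import Pool.Agent.helper34.AC.Spec3`. `g = gb m`, `ω = om m`, `x = xx m`, `y = yy m` in the proofs below. `C` denotes constants which may change.
-/

set_option autoImplicit false

open Filter Topology

namespace Pool.Agent.helper34.AC

/-- `ω(n) = n B_n / B_(n+1)`. -/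
noncomputable def om (n : ℕ) : ℝ := (n : ℝ) / gb n

/-- First difference of `gb` (used for `n ≥ 1`). -/
noncomputable def xx (n : ℕ) : ℝ := gb n - gb (n - 1)

/-- Minus the second difference of `gb`: `xx (n-1) - xx n` (used for `n ≥ 2`). -/
noncomputable def yy (n : ℕ) : ℝ := 2 * gb (n - 1) - gb n - gb (n - 2)

/-- Third difference of `gb`: `yy (n-1) - yy n` (used for `n ≥ 3`). -/
noncomputable def ww (n : ℕ) : ℝ := gb n - 3 * gb (n - 1) + 3 * gb (n - 2) - gb (n - 3)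

/-- The operator `X d/dX`. -/
noncomputable def th (P : Polynomial ℝ) : Polynomial ℝ := Polynomial.X * Polynomial.derivative P

/-- Touchard polynomials. -/
noncomputable def Tou : ℕ → Polynomial ℝ
  | 0 => 1
  | n + 1 => Polynomial.X * (Tou n + Polynomial.derivative (Tou n))

/-- Probability that the block of a fixed element of a random partition of `m+1` elements has `t+1` elements. -/
noncomputable def pT (m t : ℕ) : ℝ := (m.choose t : ℝ) * bl (m - t) / bl (m + 1)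

/-! ## Real roots and third differences -/

/-- **RLE** (LONG). uses: nothing. Same proof as `Polynomial.card_roots_le_derivative` in
`Mathlib/Analysis/Calculus/LocalExtr/Polynomial.lean` (copy and adapt it), with `derivative p` replaced by `p + derivative p`.
Proof. Between two consecutive roots of `p` there is, by Rolle's theorem for `e^x p(x)`, a root of `p + p'`; a root of `p` of multiplicity `k ≥ 1` is a root of `p + p'` of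
multiplicity at least `k - 1` (exactly `k-1`). -/
def RLE_stmt : Prop := ∀ p : Polynomial ℝ,
  Multiset.card p.roots ≤ Multiset.card (p + Polynomial.derivative p).roots + 1

/-- **RTS** (medium). All roots of the Touchard polynomials are real and `≤ 0`. uses: RLE.
Proof. `Tou n` is monic of degree `n` with nonnegative coefficients, so it has no root `> 0`. Induction: all `n` roots of `Tou n` are real (with multiplicity), so by RLE `S = Tou n + (Tou n)'`, monic of degree `n`, has at least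
`n - 1` real roots; a real polynomial of degree `n` with at least `n-1` real roots has `n` of them (divide by the product of the linear factors: the quotient has degree `≤ 1`). `Tou (n+1) = X S`. Write a monic polynomial with all roots
real as `∏ (X - a)` over its multiset of roots, enumerated by `Fin n`. -/
def RTS_stmt : Prop := ∀ n : ℕ, ∃ r : Fin n → ℝ, (∀ i, 0 ≤ r i) ∧
  Tou n = ∏ i, (Polynomial.X + Polynomial.C (r i))

/-- **TOB** (medium). uses: BRC (only the recursion of the Bell numbers is needed, `Nat.bell_succ`).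
Proof. First `Tou (n+1) = X * ∑_(k ≤ n) C(n,k) Tou k` by induction: `Tou (k+1) = X Tou k + X Tou k'`, so `X (Tou (n+1))' = Tou (n+1) + X ∑ C(n,k) (Tou (k+1) - X Tou k)` and
`Tou (n+2) = X Tou (n+1) + X (Tou (n+1))' = Tou (n+1) + X ∑ C(n,k) Tou (k+1) = X ∑ C(n+1,k) Tou k`. So `Tou n` at `1` is `B_n`. Next `Tou (n+1) = X Tou n + th (Tou n)` and `th (X P) = X P + X th P`, so with
`e_j = (th^j (Tou n))(1)`: `(th^j (Tou (n+1)))(1) = ∑_i C(j,i) e_i + e_(j+1)`; iterate. -/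
def TOB_stmt : Prop := (∀ n : ℕ, (Tou n).eval 1 = bl n) ∧
  (∀ n : ℕ, bl (n + 1) = (th (Tou n)).eval 1 + (Tou n).eval 1) ∧
  (∀ n : ℕ, bl (n + 2) = (th (th (Tou n))).eval 1 + 2 * (th (Tou n)).eval 1 + 2 * (Tou n).eval 1) ∧
  (∀ n : ℕ, bl (n + 3) = (th (th (th (Tou n)))).eval 1 + 3 * (th (th (Tou n))).eval 1 + 6 * (th (Tou n)).eval 1
    + 5 * (Tou n).eval 1) ∧
  (∀ n : ℕ, bl (n + 4) = (th (th (th (th (Tou n))))).eval 1 + 4 * (th (th (th (Tou n)))).eval 1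
    + 12 * (th (th (Tou n))).eval 1 + 20 * (th (Tou n)).eval 1 + 15 * (Tou n).eval 1)

/-- **CUM** (medium). Moments and cumulants of a sum of independent Bernoulli variables. uses: nothing.
Proof. Induction on `s`: for `Q' = (1 - p + p X) Q`, `th^j ((C(1-p) + C p X) Q) = (C(1-p) + C p X) th^j Q + p X ∑_(i < j) C(j,i) th^i Q`, so the values at `1` satisfy
`m'_j = m_j + p ∑_(i<j) C(j,i) m_i`; check with `ring`. -/
def CUM_stmt : Prop := ∀ (ι : Type) [DecidableEq ι] (s : Finset ι) (p : ι → ℝ) (Q : Polynomial ℝ) (k1 k2 k3 k4 : ℝ),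
  Q = ∏ i ∈ s, (Polynomial.C (1 - p i) + Polynomial.C (p i) * Polynomial.X) →
  k1 = ∑ i ∈ s, p i → k2 = ∑ i ∈ s, p i * (1 - p i) → k3 = ∑ i ∈ s, p i * (1 - p i) * (1 - 2 * p i) →
  k4 = ∑ i ∈ s, p i * (1 - p i) * (1 - 6 * (p i * (1 - p i))) →
  Q.eval 1 = 1 ∧ (th Q).eval 1 = k1 ∧ (th (th Q)).eval 1 = k1 ^ 2 + k2 ∧
  (th (th (th Q))).eval 1 = k1 ^ 3 + 3 * k1 * k2 + k3 ∧
  (th (th (th (th Q)))).eval 1 = k1 ^ 4 + 6 * k1 ^ 2 * k2 + 3 * k2 ^ 2 + 4 * k1 * k3 + k4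

/-- **D23** (medium). uses: RTS, TOB, CUM, BRC.
Proof. Fix `n`, `h = gb n`. With `p_i = 1/(1 + r_i) ∈ (0,1]` (RTS) `Tou n = B_n ∏ (1 - p_i + p_i X)`, so by TOB and CUM `E_j = bl (n+j)/bl n` are `E_1 = 1 + k1`, `E_2 = k1² + k2 + 2 k1 + 2`,
`E_3 = m_3 + 3 m_2 + 6 m_1 + 5`, `E_4 = m_4 + 4 m_3 + 12 m_2 + 20 m_1 + 15` (`m_j` the moments of CUM). Let `X = xx (n+1)`, `y = yy (n+2)`, `y' = yy (n+3)`, `w = ww (n+3)`, `b = 2X - y = gb(n+2) - h`,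
`c = 3X - 2y - y' = gb(n+3) - h`. `E_1 = h`, `E_2 = h (h+X)`, `E_3 = h (h+X)(h+b)`, `E_4 = h(h+X)(h+b)(h+c)`. So (cumulants; ring)
`h X = E_2 - E_1² = 1 + k2`, `h (X b - h y) = E_3 - 3 E_2 E_1 + 2 E_1³ = 1 + k3`, `h (h² w + h (b c + c X - 3 X b - 3 X²) + X b c) = E_4 - 4 E_3 E_1 - 3 E_2² + 12 E_2 E_1² - 6 E_1⁴ = 1 + k4`,
and `b c + c X - 3 X b - 3 X² = -6 X y - 3 X y' + 2 y² + y y'`. As `0 ≤ p_i(1-p_i) ≤ 1/4`: `0 ≤ k2 ≤ k1`, `|k3| ≤ k2`, `|k4| ≤ k2`. Hence `0 < X ≤ 1` (`1 ≤ h X ≤ h`), `|X b - h y| ≤ X`, so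
`|h y| ≤ X + X b ≤ 3` (`b ≤ 2`), the same for `n+1`: `|y'| gb(n+1) ≤ 3`, so `|h y'| ≤ 3`, and
`|h² w| ≤ X + 6 X |h y| + 3 X |h y'| + (2 |h y|² + |h y| |h y'|)/h + X b c ≤ 1 + 18 + 9 + 27 + 6 = 61` (`h ≥ 1`). -/
def D23_stmt : Prop := (∀ n : ℕ, 0 < xx (n + 1) ∧ xx (n + 1) ≤ 1) ∧
  (∀ n : ℕ, |yy (n + 2)| * gb n ≤ 3) ∧ (∀ n : ℕ, |ww (n + 3)| * gb n ^ 2 ≤ 61) ∧
  ∀ m n : ℕ, m ≤ n → gb m ≤ gb n

/-- **E1M** (medium). The block of an element of a random partition. uses: BRC.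
Proof. `∑ C(m,t) b(m-t) = b(m+1)` (`Nat.bell_succ`). `C(m,t) C(t,k) = C(m,k) C(m-k,t-k)` gives `∑ C(m,t) C(t,k) b(m-t) = C(m,k) b(m-k+1)`, and
`om m om (m-1) ... om (m-k+1) = m (m-1) ... (m-k+1) b(m-k+1)/b(m+1)`. The last identity: `∑ C(m,t) b(m-t+1) = F_m(2)` (`F_m(z+1) = ∑ C(m,k) z^(m-k) b(k+1)`, see BRC) `= F_(m+1)(1) - F_m(1) = b(m+2) - b(m+1)`. -/
def E1M_stmt : Prop := (∀ m t : ℕ, 0 ≤ pT m t) ∧ (∀ m : ℕ, ∑ t ∈ Finset.range (m + 1), pT m t = 1) ∧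
  (∀ m : ℕ, ∑ t ∈ Finset.range (m + 1), pT m t * (t : ℝ) = om m) ∧
  (∀ m : ℕ, 2 ≤ m → ∑ t ∈ Finset.range (m + 1), pT m t * (t.choose 2 : ℝ) = om m * om (m - 1) / 2) ∧
  (∀ m : ℕ, 2 ≤ m → ∑ t ∈ Finset.range (m + 1), pT m t * (t.choose 3 : ℝ) = om m * om (m - 1) * om (m - 2) / 6) ∧
  ∀ m : ℕ, ∑ t ∈ Finset.range (m + 1), pT m t * gb (m - t) = gb (m + 1) - 1

/-- **OMF** (medium). uses: ULB, BLO, BUP, BRC, D23.
Proof. `om` is nondecreasing: ULB gives `om (n+1) ≥ om n` (even with `(n+1)²` instead of `n(n+2)`), and the formula for the difference is `(n+1)/gb(n+1) - n/gb n = (gb n - n xx(n+1))/(gb n gb(n+1))`.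
`om n ≤ log (gb n)` (BLO); `log (gb n) ≤ om n + 1` (BUP with `z = 0`: `gb n log (gb n) ≤ n + 1`). `gb n → ∞` (`gb n log (gb n) ≥ n`), so `om n → ∞`, and `(1 + om n)^k/gb n ≤ (1 + log (gb n))^k/gb n → 0`. -/
def OMF_stmt : Prop := (∀ n : ℕ, 0 ≤ om n ∧ om n ≤ om (n + 1) ∧
    om (n + 1) - om n = (1 - om n * xx (n + 1)) / gb (n + 1)) ∧
  (∀ m n : ℕ, m ≤ n → om m ≤ om n) ∧ (∀ n : ℕ, om n ≤ Real.log (gb n) ∧ Real.log (gb n) ≤ om n + 1) ∧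
  Tendsto gb atTop atTop ∧ Tendsto om atTop atTop ∧
  ∀ k : ℕ, Tendsto (fun n => (1 + om n) ^ k / gb n) atTop (𝓝 0)

/-- **TAY** (LONG). Discrete Taylor formula, uniform in `t ≤ m`. uses: D23, OMF.
Proof. `gb m - gb (m-t) - t xx m - C(t,2) yy m = ∑_(i = 0)^(t-3) C(t-1-i,2) ww (m-i)` (induction on `t ≤ m`; `t = 0, 1, 2`: zero; note `∑_(i=0)^(t-3) C(t-1-i,2) = C(t,3)`). Let `m` be large and `t ≤ m/2`. For
`i ≤ t - 3`, `j = m-i-3 ≥ m/4`, `om` nondecreasing gives `gb j ≥ (j/m) gb m ≥ gb m/4`, so `|ww (m-i)| ≤ 61·16/gb m²`. For `t > m/2`: the left side is at most `gb m + m + (m²/2)(3/gb(m-2)) ≤ 2m + 3m²/g`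
(`gb (m-2) ≥ gb m/2`), and `C(t,3) ≥ m³/400`, `m = ω g`, `ω ≥ 1`, so `2m + 3m²/g ≤ 5 ω² g ≤ C m³/(400 g²)` for `C = 2000`. -/
def TAY_stmt : Prop := ∃ C : ℝ, 0 < C ∧ ∃ M : ℕ, ∀ m : ℕ, M ≤ m → ∀ t : ℕ, t ≤ m →
  |gb m - gb (m - t) - (t : ℝ) * xx m - (t.choose 2 : ℝ) * yy m| ≤ C * (t.choose 3 : ℝ) / gb m ^ 2

/-- **XLI** (LONG). uses: D23, E1M, OMF, TAY.
Proof. By E1M `1 - xx(m+1) = gb m - (gb(m+1) - 1) = ∑ pT m t (gb m - gb(m-t))`, and TAY gives `= xx m ω + yy m ω om(m-1)/2 + O(ω³/g²)`. `|yy j| ≤ 3/gb(j-2) ≤ 6/g` and `|ww j| ≤ 61/gb(j-3)² ≤ 250/g²` for `j = m, m+1` (`gb (m-3) ≥ gb m/2` for large `m`).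
`xx m = xx(m+1) + yy(m+1)`, `yy(m+1) = yy m - ww(m+1)`, `|om(m-1) - ω| ≤ 1/g`: so `1 - xx(m+1) = (xx(m+1) + yy m) ω + yy m ω²/2 + O((1+ω)³/g²)`, which is the first claim; the other two follow from it and `|yy m| ≤ 6/g`. -/
def XLI_stmt : Prop := ∃ C : ℝ, 0 < C ∧ ∃ M : ℕ, ∀ m : ℕ, M ≤ m →
  |1 - xx (m + 1) * (1 + om m) - yy m * (om m + om m ^ 2 / 2)| ≤ C * (1 + om m) ^ 3 / gb m ^ 2 ∧
  |yy m| ≤ C / gb m ∧ |ww m| ≤ C / gb m ^ 2 ∧ |xx (m + 1) * (1 + om m) - 1| ≤ C * (1 + om m) ^ 3 / gb m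

/-- **ASY** (LONG). The basic asymptotics. uses: D23, OMF, XLI.
Proof. Let `s_k` denote quantities `≤ C (1+ω)^k/g`, which tend to `0` (OMF). Fourth and fifth claims: OMF. Sixth and first claims: `xx m = xx(m+1) + yy(m+1)`, `xx(m+1)(1+ω) = 1 + s_3` (XLI), so `xx m (1+ω) = 1 + s_3`, `xx m ω → 1` as `xx m → 0`, and
`1 - ω xx m - xx m = 1 - (1+ω) xx m = s_3 ≤ e xx m` because `xx m ≥ 1/(2(1+ω))`. Second claim: let `B_m = 1 - xx(m+1)(1+om m) - yy m (om m + om m²/2)`; `|B_m - B_(m-1)| ≤ C(1+ω)³/g²` by XLI. `xx m - xx(m+1) = yy(m+1)`, `yy(m+1) = yy m + O(1/g²)`,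
`yy(m-1) = yy m + O(1/g²)`, `om(m-1) = om m + O(1/g)`, `yy m = O(1/g)`: `B_m - B_(m-1) = yy(m+1)(1+om m) - xx m (om m - om(m-1)) + O((1+ω)²/g²)`, so `yy m (1+ω) = xx m δ + O((1+ω)³/g²)`, `δ = om m - om(m-1) = (1 - om(m-1) xx m)/gb m`
(OMF) `= (xx m + s_3)/gb m`. So `yy m (1+ω) = x²/g + O((1+ω)³/g²)` and, multiplying with `x = (1 + s_3)/(1+ω)`: `yy m = x³/g + O((1+ω)^3/g²)`, relative error `O((1+ω)^6/g)`. Third claim: `yy (m+1) ≥ 0`. -/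
def ASY_stmt : Prop := ∀ e : ℝ, 0 < e → ∃ M : ℕ, ∀ m : ℕ, M ≤ m →
  |xx m * om m - 1| ≤ e ∧ |yy m - xx m ^ 3 / gb m| ≤ e * (xx m ^ 3 / gb m) ∧ xx (m + 1) ≤ xx m ∧
  (1 + om m) ^ 8 ≤ e * gb m ∧ 1 / e ≤ om m ∧ |1 - om m * xx m - xx m| ≤ e * xx m ∧ 0 < yy m ∧ 0 < xx m

/-- **SLP** (medium). Slope of `om`. uses: TAY, ASY, OMF, D23.
Proof. `i ≤ (1+ω)² ≤ m/2` for large `m`. `d = gb m - gb(m-i)`: `om m - om(m-i) = (i gb m - m d)/(gb m gb(m-i))` and by TAY `d ≤ x i + y i²/2 + C i³/(6g²)`, so with `m = ω g`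
`i g - m d ≥ i g (1 - ω x - ω y i/2 - C ω i²/(6g²))`, where `1 - ωx ≥ (1-e')x`, `ω y i ≤ ω (1+ω)² 2 x³/g ≤ e' x`, `C ω i²/g² ≤ e' x` (ASY). So `i g - m d ≥ (1 - 3e') i g x ≥ 0` and `gb(m-i) ≤ gb m`. Last claim: `d ≤ i ≤ (1+ω)² ≤ e' g` as `xx ≤ 1`. -/
def SLP_stmt : Prop := ∀ e : ℝ, 0 < e → ∃ M : ℕ, ∀ m : ℕ, M ≤ m → ∀ i : ℕ, (i : ℝ) ≤ (1 + om m) ^ 2 →
  2 * i ≤ m ∧ (1 - e) * (i : ℝ) * xx m / gb m ≤ om m - om (m - i) ∧ gb m ≤ (1 + e) * gb (m - i)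

/-- **AN3** (LONG). uses: BUP, BRC, BLO, OMF, ASY, XLI, D23.
Proof. `a_n = gb n log (gb n) - n ∈ [0,1]` (BLO; BUP with `z = 0`). With `X = xx(n+1)`, `g = gb n`, `L = log g = om n + a_n/g`: `a_(n+1) - a_n = (g+X) log(g+X) - g log g - 1 ≥ X (1 + L) - 1` (convexity of `t log t`)
`= X(1 + om n) - 1 + X a_n/g`. By XLI and ASY `X (1 + om n) - 1 ≥ - yy n (om n + om n²/2) - C(1+ω)³/g²`, and `yy n (ω + ω²/2) ≤ (1+e') (x³/g) ω(2+ω)/2 ≤ (1/2 + e'') x/g` for large `n` (`xω → 1`, `x = xx n`), `X/x → 1`. So for large `n`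
`a_(n+1) - a_n ≥ (X/g)(a_n - 5/8)`. If `a_n > 3/4` for some large `n`, then `a_k > 3/4` for all `k ≥ n` and `a_(k+1) - a_k ≥ xx(k+1)/(8 gb k) ≥ (log (gb(k+1)) - log (gb k))/8`, so `a_k → ∞`, a contradiction. -/
def AN3_stmt : Prop := ∃ M : ℕ, ∀ n : ℕ, M ≤ n → gb n * Real.log (gb n) ≤ n + 3 / 4

/-- **GAP** (medium). uses: WEX, TAN, GPS, BLO, BUP, BRC, AN3.
Proof. `P = psi n`, `g = gb n ≥ P` (GPS), `P log P = n`, `log P = W n`. Convexity of `t log t`: `(g - P)(1 + log P) ≤ g log g - P log P = a_n`, which is `≤ 1` for all `n` and `≤ 3/4` for large `n`. `om n = n/g ≤ n/P = W n`. Last part: with `w = W x`,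
`(w + s) e^(w+s) ≥ e^s x`, so `W (e^s x) ≤ w + s`. -/
def GAP_stmt : Prop := (∀ n : ℕ, gb n - 1 ≤ psi n ∧ om n ≤ W n) ∧
  (∃ M : ℕ, ∀ n : ℕ, M ≤ n → gb n - 3 / 4 / (1 + W n) ≤ psi n) ∧
  ∀ x s : ℝ, 0 ≤ x → 0 ≤ s → W (Real.exp s * x) ≤ W x + s

/-- `Bf j = om j + (4/5)/gb j`. -/
noncomputable def Bf (j : ℕ) : ℝ := om j + 4 / 5 / gb j

/-- **BMO** (short/medium). `Bf` is eventually nondecreasing. uses: OMF, D23, ASY.
Proof. `Bf (j+1) - Bf j = (1 - om j X)/gb(j+1) - (4/5) X/(gb j gb(j+1))`, `X = xx(j+1)`, and `1 - om j X ≥ 1 - om (j+1) xx (j+1) ≥ X/2 ≥ X/gb j` for large `j` (ASY). -/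
def BMO_stmt : Prop := ∃ M : ℕ, ∀ i j : ℕ, M ≤ i → i ≤ j → Bf i ≤ Bf j

/-- **EFN** (LONG). The error function of the absorption argument. uses: WEX, GAP, OMF, ASY, BMO, D23.
Proof. Let `M` (at least the given `M0`) be large enough for GAP, BMO, ASY (with small `e`), `1/gb n ≤ 1/100` for `n ≥ M`. Let `M1` be much larger than `M`, `A = (3/4)/(1 + W(M1/4))` (real numbers inside `W`). Put `e n = 1` for `n < M`, `e n = (3/4)/(1 + W n)` for `M ≤ n`, `4 n < M1`, and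
`e n = A * max 0 (min 1 (1 - log(n/M1)/200))` for `M1 ≤ 4n`. (a) clear. (b): GAP (`e n = A ≥ (3/4)/(1+W n)` for `M1/4 ≤ n < M1`). (e): `N2 ≥ M1 e^200`. (c) Let `j = max i ((m+1)/2)`, so `j ≥ i`, `j ≥ m/2 ≥ M`, `m + 1 ≥ M1`. If `i < M`: `i = 0` is clear (`gb 0 = 1`); for
`i ≥ 1` `gb i - 1 ≥ 1` (`gb 1 = 2`) and `Bf j ≥ om ((m+1)/2) ≥ M` for `M1` large. If `i ≥ M`: `Bf j ≥ Bf i` and `(om i + (4/5)/g)(g - e i) = i + 4/5 - om i e_i - (4/5) e_i/g ≥ i` (`g = gb i`) since `om i e_i ≤ 0.78` : for `4 i < M1` `om i e_i ≤ (3/4) W i/(1 + W i)`; for `4i ≥ M1`,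
`e_i > 0` only if `i < M1 e^200`, and then `om i ≤ W i ≤ W(M1/4) + 200 + log 4` (GAP), so `om i A ≤ 0.78` for `M1` large. (d) `m + 1 ≥ M1`, `2t ≤ m`, so `m - t ≥ m/2 ≥ M1/4`: if `m ≥ 2 M1 e^200 + 2` then `e (m-t) = 0`. Otherwise the function
`u ↦ max 0 (min 1 (1 - log(u/M1)/200))` is nonincreasing and `1/200`-Lipschitz in `log u`, so `e(m-t) - e(m+1) ≤ (A/200) log((m+1)/(m-t)) ≤ (A/200)(t+1)/(m-t) ≤ (A/100)(t+1)/m`, and `m = om m gb m`: it is enough that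
`40 A (1 + om m)/100 ≤ xx m om m`, true because `A (1 + om m) ≤ A (1 + W m) ≤ A (1 + W(M1/4) + 200 + log 16) ≤ 0.8` for `M1` large and `xx m om m ≥ 1/2`. -/
def EFN_stmt : Prop := ∀ M0 : ℕ, ∃ (e : ℕ → ℝ) (M1 N2 : ℕ), M0 ≤ M1 ∧ (∀ n, 0 ≤ e n ∧ e n ≤ 1) ∧
  (∀ n < M1, gb n - e n ≤ psi n) ∧
  (∀ m, M1 ≤ m + 1 → ∀ i, i ≤ m → (i : ℝ) ≤ Bf (max i ((m + 1) / 2)) * (gb i - e i)) ∧
  (∀ m, M1 ≤ m + 1 → ∀ t : ℕ, 2 * t ≤ m →
    e (m - t) ≤ e (m + 1) + ((t : ℝ) + 1) * xx m / (40 * gb m * (1 + om m))) ∧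
  ∀ n, N2 ≤ n → e n = 0

end Pool.Agent.helper34.AC
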