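import Pool.Agent.helper34.AC.Spec3

/-!
# Project ac: (MP_e0bd72_co), part 6: all graphs of large order, fixed chromatic number

Same rules as in `Spec.lean`, with `import Pool.Agent.helper34.AC.Spec4`. In the proofs `m = |U| - 1`, `g = gb m`, `ω = om m`, `x = xx m`; for a vertex `v` of `U`
`p S = N(U.erase v \ S)/N(U)` are probabilities on `st G {v} (U.erase v)` (RCN) and `E` is the expectation, so `E |S| = M_1/N(U)`, `E |S|(|S|-1) = M_2/N(U)`. `|U.erase v \ S| = m - |S|`.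
-/

set_option autoImplicit false

open Filter Topology

namespace Pool.Agent.helper34.AC

/-- The size of the block of `y` in the partition `P`. -/
def cs {V : Type} [DecidableEq V] (P : Finset (Finset V)) (y : V) : ℕ := ∑ B ∈ P.filter (fun B => y ∈ B), B.card

/-- The total size of the blocks of `P` which meet `Y`. -/
def DY {V : Type} [DecidableEq V] (Y : Finset V) (P : Finset (Finset V)) : ℕ :=
  ∑ B ∈ P.filter (fun B => ¬ Disjoint B Y), B.card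

/-- **FMV** (LONG). Neighbours of `v` and the block of `v`. uses: REC, DEC, FM1, RCN.
Proof. General lemma: if `Y ⊆ R` and every `y ∈ Y` is adjacent to an element of `X`, `o` monotone, `Om G R o`, then
`Mk G X R 1 ≤ ∑_(S ∈ st G X R) ∑_(P ∈ col G (R \ S)) o (|R| - DY Y P)`. Strong induction on `|R|`. `Y = ∅`: `DY ∅ P = 0`, FM1. If `y ∈ Y`: DEC for `y`, the induction hypothesis for `R' = R.erase y \ Q`, `Y' = Y ∩ R'`,
and for `P' ∈ col G (R' \ S)` the partition `P = insert (insert y Q) P'` of `R \ S` has `DY Y P = |Q| + 1 + DY Y' P'`, so `|R| - DY Y P = |R'| - DY Y' P'`; the sum over `(Q,S,P')` is the sum over `(S,P)` (REC for `y ∈ R \ S`, exchange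
of the sums over `S` and `Q` as in DEC). Then `X = {v}`, `R = U.erase v`: by REC the double sum is the sum over `P ∈ col G U`, because the block of `v` does not meet `Y`. -/
def FMV_stmt : Prop := ∀ (V : Type) [DecidableEq V] (G : SimpleGraph V) (U Y : Finset V) (v : V) (o : ℕ → ℝ),
  v ∈ U → Y ⊆ U → (∀ y ∈ Y, G.Adj v y) → Monotone o → Om G (U.erase v) o →
  Mk G {v} (U.erase v) 1 ≤ ∑ P ∈ col G U, o (U.card - 1 - DY Y P)

/-- **BSZ** (short/medium). Block sizes. uses: REC, RCN.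
Proof. REC: the block of `y` in `insert (insert y S) P` is `insert y S`, with `|S| + 1` elements. `(|S|+1)² = |S|(|S|-1) + 3|S| + 1`. -/
def BSZ_stmt : Prop := ∀ (V : Type) [DecidableEq V] (G : SimpleGraph V) (U : Finset V) (y : V), y ∈ U →
  (∀ f : ℕ → ℝ, ∑ P ∈ col G U, f (cs P y) = ∑ S ∈ st G {y} (U.erase y), f (S.card + 1) * N G (U.erase y \ S)) ∧
  ∑ P ∈ col G U, (cs P y : ℝ) = N G U + Mk G {y} (U.erase y) 1 ∧
  ∑ P ∈ col G U, (cs P y : ℝ) ^ 2 = N G U + 3 * Mk G {y} (U.erase y) 1 + Mk G {y} (U.erase y) 2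

/-- **SAM** (medium). Two vertices in the same block. uses: REC.
Proof. Removing `a` from its block maps the partitions of `U` in which `v` and `a` are in the same block injectively to the partitions of `U.erase a` (the inverse adds `a` to the block of `v`). The sum is the number of these
partitions (REC for `v`). -/
def SAM_stmt : Prop := ∀ (V : Type) [DecidableEq V] (G : SimpleGraph V) (U : Finset V) (v a : V),
  v ∈ U → a ∈ U → v ≠ a →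
  (((col G U).filter (fun P => ∃ B ∈ P, v ∈ B ∧ a ∈ B)).card : ℝ) ≤ N G (U.erase a) ∧
  ∑ S ∈ (st G {v} (U.erase v)).filter (fun S => a ∈ S), N G (U.erase v \ S) ≤ N G (U.erase a)

/-- **TAI** (medium). Large blocks are rare. uses: FM2, RCN, OMF.
Proof. `M_3 ≤ o(m)³ M_0` (FM2 three times, `M_0 = N(U)`), `o m ≤ ω + 1 ≤ 2ω`; if `m < 2|S|` and `m ≥ 8` then `|S|(|S|-1)(|S|-2) ≥ (m/4)³`. So the sum is at most `64 (2ω)³/m³ N(U) = 512/g³ N(U)` (`m = ω g`). -/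
def TAI_stmt : Prop := ∃ M : ℕ, ∀ m : ℕ, M ≤ m → ∀ (V : Type) [DecidableEq V] (G : SimpleGraph V) (U : Finset V)
  (v : V) (o : ℕ → ℝ), U.card = m + 1 → v ∈ U → Monotone o → Om G (U.erase v) o → o m ≤ om m + 1 / gb m →
  ∑ S ∈ (st G {v} (U.erase v)).filter (fun S => m < 2 * S.card), N G (U.erase v \ S) ≤ 512 / gb m ^ 3 * N G U

/-- **STR** (LONG). The main step. uses: FM2, RCN, E1M, TAY, ASY, OMF, XLI.
Proof. `μ = E |S|`. FM2 and RCN: `μ ≤ o m`, `E C(|S|,2) ≤ o(m) μ/2`, `E C(|S|,3) ≤ o(m)² μ/6`, `o m ≤ ω + 1/g`. TAY (`yy m > 0` by ASY): `E gb(m-|S|) ≥ g - x μ - yy m o(m) μ/2 - C o(m)² μ/(6g²)`. E1M and TAY: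
`gb(m+1) - 1 = ∑ pT m t gb(m-t) ≤ g - x ω - yy m ω om(m-1)/2 + C ω³/(6g²)`. Difference: `E gb(m-|S|) - (gb(m+1) - 1) ≥ x(ω - μ) + (yy m/2)(ω om(m-1) - o(m) μ) - C(1+ω)³/g²`, and `ω om(m-1) ≥ ω (ω - 1/g)`, `o(m) μ ≤ (ω+1/g)²`,
`yy m ≤ C/g`. -/
def STR_stmt : Prop := ∃ C : ℝ, 0 < C ∧ ∃ M : ℕ, ∀ m : ℕ, M ≤ m → ∀ (V : Type) [DecidableEq V] (G : SimpleGraph V)
  (U : Finset V) (v : V) (o : ℕ → ℝ), U.card = m + 1 → v ∈ U → Monotone o → Om G (U.erase v) o →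
  o m ≤ om m + 1 / gb m →
  (gb (m + 1) - 1 + xx m * om m - C * (1 + om m) ^ 3 / gb m ^ 2) * N G U - xx m * Mk G {v} (U.erase v) 1 ≤
    ∑ S ∈ st G {v} (U.erase v), gb (m - S.card) * N G (U.erase v \ S)

/-- **ZER** (medium). uses: FM2, RCN, OMF.
Proof. `p₀ = N(U.erase a)/N(U) = p ∅`. `μ² p₀ ≤ E (|S| - μ)² = (M_2 + M_1)/N(U) - μ² ≤ μ (1 + o m - μ) ≤ 3 μ` because `μ ≥ ω - 1`. So `p₀ ≤ 3/μ ≤ 3/(ω-1) ≤ 4/ω` for `ω ≥ 4`. -/
def ZER_stmt : Prop := ∃ M : ℕ, ∀ m : ℕ, M ≤ m → ∀ (V : Type) [DecidableEq V] (G : SimpleGraph V) (U : Finset V)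
  (a : V) (o : ℕ → ℝ), U.card = m + 1 → a ∈ U → Monotone o → Om G (U.erase a) o → o m ≤ om m + 1 / gb m →
  (om m - 1) * N G U ≤ Mk G {a} (U.erase a) 1 → N G (U.erase a) ≤ 4 / om m * N G U

/-- **TWS** (LONG). The two ends of an edge. uses: TWO, FM2, RCN, SIZ, SLP, ASY, OMF.
Proof. Suppose the first alternative fails, so `μ = E |S| ≥ ω - 1/(10g)` for the vertex `v`. TWO: `M_1({w},U.erase w)/N(U) ≤ E o(m-1-|S|)`. Let `i = |S|+1`, `K = (1+ω)²`. If `i ≤ K`: `2i ≤ m` and (SLP) `o(m-i) ≤ Bf(m-i) = om(m-i) + (4/5)/gb(m-i) ≤ ω - (1-e) i x/g + (4/5)(1+e)/g`.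
If `i > K`: `o(m-i) ≤ o m ≤ ω + (4/5)/g`. So `M_1/N(U) ≤ ω + (4/5)(1+e)/g - (1-e)(x/g) E[i 1_(i ≤ K)]`. `E i² = 1 + 3μ + M_2/N(U) ≤ 1 + 3 o(m) + o(m)² ≤ 2 (1+ω)²`, so `E[i 1_(i>K)] ≤ 2` and `E[i 1_(i ≤ K)] ≥ 1 + μ - 2 ≥ ω - 2`, and
`(x/g)(ω - 2) ≥ (1 - 2e)/g` for large `m` (`xω → 1`, `x → 0`). With `e` small: `≤ ω - 1/(10 g)`. -/
def TWS_stmt : Prop := ∃ M : ℕ, ∀ m : ℕ, M ≤ m → ∀ (V : Type) [DecidableEq V] (G : SimpleGraph V) (U : Finset V)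
  (v w : V) (o : ℕ → ℝ), U.card = m + 1 → v ∈ U → w ∈ U → G.Adj v w → Monotone o → Om G (U.erase v) o →
  Om G (U.erase w) o → (∀ j, m ≤ 2 * j → j ≤ m → o j ≤ Bf j) →
  Mk G {v} (U.erase v) 1 ≤ (om m - 1 / (10 * gb m)) * N G U ∨
  Mk G {w} (U.erase w) 1 ≤ (om m - 1 / (10 * gb m)) * N G U

/-- **STP** (medium). One step of the absorption argument. uses: TWS, STR, TAI, RCN, SIZ, BMO, ASY, OMF.
Proof. `o j = Bf (max j ((m+1)/2))` is monotone (BMO, `m` large), `o j = Bf j` for `m ≤ 2j`, `o m ≤ om m + 1/gb m`, and `Om G (U.erase v) o` by the two hypotheses on `e` (`i N ≤ o i (gb i - e i) N ≤ o i N1`). `U` is not stable: there are adjacent `v, w ∈ U`; TWS gives (after renaming)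
`M_1 ≤ (ω - 1/(10g)) N(U)`. RCN: `N1(U) = N(U) + ∑ N1(U.erase v \ S) ≥ N(U) + ∑ (gb(m-|S|) - e(m-|S|)) N(U.erase v \ S)`, and STR with `C(1+ω)³/g² ≤ x/(110 g)` (ASY). TAI for the last part. -/
def STP_stmt : Prop := ∃ M : ℕ, ∀ m : ℕ, M ≤ m → ∀ e : ℕ → ℝ, (∀ i, 0 ≤ e i ∧ e i ≤ 1) →
  (∀ i, i ≤ m → (i : ℝ) ≤ Bf (max i ((m + 1) / 2)) * (gb i - e i)) →
  ∀ (V : Type) [DecidableEq V] (G : SimpleGraph V),
  (∀ U : Finset V, U.card ≤ m → (gb U.card - e U.card) * N G U ≤ N1 G U) →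
  ∀ U : Finset V, U.card = m + 1 → ¬ Stab G U → ∃ v ∈ U, Mk G {v} (U.erase v) 1 ≤ om m * N G U ∧
    ∑ S ∈ (st G {v} (U.erase v)).filter (fun S => m < 2 * S.card), N G (U.erase v \ S) ≤ 512 / gb m ^ 3 * N G U ∧
    (gb (m + 1) + xx m / (11 * gb m)) * N G U
      - ∑ S ∈ st G {v} (U.erase v), e (m - S.card) * N G (U.erase v \ S) ≤ N1 G U

/-- **T2S** (LONG). All graphs of large order. uses: STP, EFN, MAIN, LTW, RCN, POS, ASY, SIZ.
Proof. Take `e, M1, N2` from EFN with `M0` large. Strong induction on `|U|`: `(gb n - e n) N(U) ≤ N1(U)` for all `U`, `n = |U|`. `n < M1`: MAIN and `gb n - e n ≤ psi n`. `n = m + 1 ≥ M1`: if `U` is stable, LTW. Otherwise STP, and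
`∑ e(m-|S|) N(U.erase v \ S) ≤ (e(m+1) + (1 + ω) x/(40 g (1+ω)) + 512/g³) N(U) ≤ (e(m+1) + x/(20g)) N(U)`: for `2|S| ≤ m` by EFN (sum of `|S| + 1` is `M_1 + N(U) ≤ (1 + ω) N(U)`), for `2|S| > m` by `e ≤ 1` and the tail bound; `512/g³ ≤ x/(40g)` by ASY
(`x ≥ 1/(2ω)`, `g` large). -/
def T2S_stmt : Prop := ∃ n0 : ℕ, ∀ (V : Type) [DecidableEq V] (G : SimpleGraph V) (U : Finset V),
  n0 ≤ U.card → gb U.card * N G U ≤ N1 G U

/-- **OMS** (short/medium). A global majorant. uses: T2S, MAIN, WEX, OMF, POS.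
Proof. `o j = max c (om j)` with `c = W n0`: for `|U| ≥ n0`, `|U| N = om |U| gb |U| N ≤ om |U| N1`; for `|U| < n0`: `|U| N = W psi N ≤ W N1 ≤ c N1` (MAIN). `om j ≥ c` for large `j`. -/
def OMS_stmt : Prop := ∃ o : ℕ → ℝ, Monotone o ∧ (∀ j, 0 ≤ o j) ∧ (∃ M : ℕ, ∀ j : ℕ, M ≤ j → o j = om j) ∧
  ∀ (V : Type) [DecidableEq V] (G : SimpleGraph V) (U : Finset V), (U.card : ℝ) * N G U ≤ o U.card * N1 G U

/-- **ZST** (medium). uses: T2S, OMS, STR, TAI, RCN, MAIN, GAP.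
Proof. RCN: `N1(U) = N(U) + ∑ N1(U.erase u \ S)`, with `N1 ≥ gb N` if `m - |S| ≥ n0` (T2S) and `N1 ≥ psi N ≥ (gb - 1) N` always (MAIN, GAP); if `m - |S| < n0` then `2|S| > m` (`m ≥ 2 n0`), so TAI bounds the loss by `512/g³ N(U)`. STR with the `o` of OMS. -/
def ZST_stmt : Prop := ∃ C : ℝ, 0 < C ∧ ∃ M : ℕ, ∀ m : ℕ, M ≤ m → ∀ (V : Type) [DecidableEq V] (G : SimpleGraph V)
  (U : Finset V) (u : V), U.card = m + 1 → u ∈ U →
  (gb (m + 1) + xx m * om m - C * (1 + om m) ^ 3 / gb m ^ 2) * N G U - xx m * Mk G {u} (U.erase u) 1 ≤ N1 G U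

/-! ## Edges -/

open Classical in
/-- Twice the number of edges inside `U` (number of ordered adjacent pairs). -/
noncomputable def ep {V : Type} (G : SimpleGraph V) (U : Finset V) : ℕ :=
  ((U ×ˢ U).filter (fun p => G.Adj p.1 p.2)).card

open Classical in
/-- Degree of `v` inside `U`. -/
noncomputable def dg {V : Type} (G : SimpleGraph V) (U : Finset V) (v : V) : ℕ := (U.filter (fun u => G.Adj v u)).card

/-- **EPC** (medium). uses: nothing. -/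
def EPC_stmt : Prop := ∀ (V : Type) [DecidableEq V] (G : SimpleGraph V) (U : Finset V),
  Even (ep G U) ∧ (∀ v ∈ U, ep G U = ep G (U.erase v) + 2 * dg G U v) ∧
  (∀ A : Finset V, A ⊆ U → ep G A ≤ ep G U) ∧ (0 < ep G U → ∃ v ∈ U, 0 < dg G U v) ∧
  ∀ k : ℕ, 2 * k ≤ ep G U → ∃ A : Finset V, A ⊆ U ∧ A.card ≤ 2 * k ∧ 2 * k ≤ ep G A

/-- **DLB** (medium). uses: nothing.
Proof. Block by block: if the block `B` contains `k ≥ 1` elements of `Y` then `k |B| ≤ |B| + k (k-1) |B|` and `|B| ≤ k |B|`. -/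
def DLB_stmt : Prop := ∀ (V : Type) [DecidableEq V] (G : SimpleGraph V) (U Y : Finset V) (P : Finset (Finset V)),
  P ∈ col G U → Y ⊆ U → DY Y P ≤ ∑ y ∈ Y, cs P y ∧ DY Y P ≤ U.card ∧
  ∑ y ∈ Y, cs P y ≤ DY Y P + ∑ y ∈ Y, ∑ z ∈ Y.erase y, (if ∃ B ∈ P, y ∈ B ∧ z ∈ B then cs P y else 0)

/-- **DYL** (LONG). A vertex with `d` neighbours. uses: FMV, OMS, BSZ, SAM, ZER, DLB, FM2, RCN, SLP, ASY, OMF.
Proof. `o` from OMS, `K = (1+ω)²`. FMV: `M_1 ≤ ∑_P o(m - D(P))`, `D = DY Y P`. If `D ≤ K`: `o(m-D) = om(m-D) ≤ ω - (1-e')(x/g) D` (SLP, `m` large), otherwise `o(m-D) ≤ ω`. So `M_1 ≤ ω N(U) - (1-e')(x/g) ∑_P D 1_(D ≤ K)` and `∑_P D 1_(D ≤ K) ≥ ∑_P D - ∑_P D²/K`.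
BSZ and FM2: `∑_P cs P y = N + M_1({y}) ≥ ω N`, `∑_P (cs P y)² ≤ (1 + 3 o(m) + o(m)²) N ≤ 2(1+ω)² N`. DLB: `D² ≤ (∑_y cs P y)² ≤ d ∑ cs²`, so `∑_P D²/K ≤ 2 d² N`. For `y ≠ z`, with `λ = L (1+ω)`: `cs 1_same ≤ cs²/(2λ) + (λ/2) 1_same`, so
`∑_P cs P y 1_same ≤ ((1+ω)/L + 2 L (1+ω)/ω) N` (SAM and ZER: `∑_P 1_same ≤ N(U.erase z) ≤ (4/ω) N`). By DLB `∑_P D ≥ (d ω - d² (1+ω)/L - 4 L d²) N`. Choose `L` large, then `m` large: `∑_P D 1_(D ≤ K) ≥ (1-e') d ω N`, and `x ω → 1`. -/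
def DYL_stmt : Prop := ∀ (d : ℕ) (e : ℝ), 0 < e → ∃ M : ℕ, ∀ m : ℕ, M ≤ m → ∀ (V : Type) [DecidableEq V]
  (G : SimpleGraph V) (U Y : Finset V) (v : V), U.card = m + 1 → v ∈ U → Y ⊆ U → Y.card = d →
  (∀ y ∈ Y, G.Adj v y) → (∀ u ∈ U, (om m - 1) * N G U ≤ Mk G {u} (U.erase u) 1) →
  Mk G {v} (U.erase v) 1 ≤ (om m - (1 - e) * d / gb m) * N G U

/-- **GDP** (medium). The block of `v` avoids a small set and is small, with high probability. uses: OMS, SAM, ZER, TAI, OMF.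
Proof. The sum is at most `∑_(a ∈ A) N(U.erase a) + 512/g³ N(U) ≤ (4d/ω + 512/g³) N(U)` (SAM, ZER, TAI with the `o` of OMS). -/
def GDP_stmt : Prop := ∀ (d : ℕ) (e : ℝ), 0 < e → ∃ M : ℕ, ∀ m : ℕ, M ≤ m → ∀ (V : Type) [DecidableEq V]
  (G : SimpleGraph V) (U A : Finset V) (v : V), U.card = m + 1 → v ∈ U → A ⊆ U.erase v → A.card ≤ d →
  (∀ u ∈ U, (om m - 1) * N G U ≤ Mk G {u} (U.erase u) 1) →
  ∑ S ∈ (st G {v} (U.erase v)).filter (fun S => ¬ Disjoint S A ∨ m < 2 * S.card), N G (U.erase v \ S) ≤ e * N G U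

/-- **CST** (LONG). Graphs with at least `k` edges. uses: T2S, OMS, STR, TAI, ZST, DYL, GDP, EPC, RCN, MAIN, GAP, ASY, OMF, D23, SIZ.
Proof. Strong induction on `k`; `k = 0` is T2S. `γ(n) = xx n/gb n` is nonincreasing for large `n` (ASY). Let `k ≥ 1`, `|U| = m + 1` large and suppose `N1(U) < (gb(m+1) + k γ(m+1)) N(U)` (otherwise done). ZST for every `u ∈ U`: `x (ω N(U) - M_1({u})) ≤ (k γ(m+1) + C(1+ω)³/g²) N(U) ≤ x N(U)`, so
`(ω - 1) N(U) ≤ M_1({u}, U.erase u)` for all `u ∈ U`. Choose `v ∈ U` with `dg G U v ≥ 1` (EPC) and `d = min (dg G U v) k ≥ 1`, `Y` a set of `d` neighbours of `v` in `U`. DYL: `x (ω N(U) - M_1({v})) ≥ (1-e') d (x/g) N(U)`. Let `k' = k - d < k`. If `k' > 0` then `d = dg G U v` and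
`ep G (U.erase v) = ep G U - 2d ≥ 2k'`; in any case there is `A ⊆ U.erase v` with `|A| ≤ 2k'`, `ep G A ≥ 2k'` (EPC). RCN and STR (with the `o` of OMS): `N1(U) = N(U) + ∑_S N1(U.erase v \ S)`. For `S` disjoint from `A` with `2|S| ≤ m`: `ep G (U.erase v \ S) ≥ 2k'`, `m - |S| ≥ m/2`, so by the induction hypothesis
`N1 ≥ (gb(m-|S|) + k'(1-e') γ(m-|S|)) N` and `γ(m-|S|) ≥ γ(m+1)`. For the other `S` with `m - |S| ≥ n0` use T2S, and for the rest (`2|S| > m`) `N1 ≥ (gb - 1) N`; by GDP the `S` of the first kind have probability `≥ 1 - e'`, and by TAI or GDP with a better bound (use `512/g³`, TAI) the loss of the last kind is `≤ 512/g³`. So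
`N1(U) ≥ (gb(m+1) + (1-e') d x/g - C(1+ω)³/g² - 512/g³ + k'(1-e')² γ(m+1)) N(U)`, `x/g ≥ γ(m+1)`, and `C(1+ω)³/g² + 512/g³ ≤ e' γ(m+1)` (ASY). With `e' = e/4` this is `≥ (gb(m+1) + k(1-e)γ(m+1)) N(U)`. You may use TAI as a hypothesis. -/
def CST_stmt : Prop := ∀ (k : ℕ) (e : ℝ), 0 < e → ∃ M : ℕ, ∀ (V : Type) [DecidableEq V] (G : SimpleGraph V)
  (U : Finset V), M ≤ U.card → 2 * k ≤ ep G U →
  (gb U.card + (k : ℝ) * (1 - e) * (xx U.card / gb U.card)) * N G U ≤ N1 G U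

/-- **ISA** (short). Isomorphic graphs have the same average. uses: nothing. -/
def ISA_stmt : Prop := ∀ (V V' : Type) [Fintype V] [Fintype V'] (G : SimpleGraph V) (G' : SimpleGraph V'),
  Nonempty (G ≃g G') → avg G = avg G'

/-- **GRA** (LONG). Chromatic number and number of edges. uses: EPC.
Proof. `r ≤ 1`: `r (r-1) = 0`; if `ep = 0` then `G` and `KU n r` have no edges (take any bijection). `r ≥ 2`: `G` is not `(r-1)`-colourable. Choose `H ⊆ V` of least cardinality such that the subgraph induced on `H` is not `(r-1)`-colourable. Every `v ∈ H` has at least `r-1` neighbours in `H` (otherwise extend an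
`(r-1)`-colouring of `H.erase v`), so `|H| ≥ r` and `ep G univ ≥ ∑_(v ∈ H) dg G H v ≥ |H|(r-1) ≥ r(r-1)`. If equality holds then `|H| = r`, every vertex of `H` is adjacent to all the others, and there are no other edges; a bijection `V ≃ Fin n` mapping `H` onto `{i | i < r}` is an isomorphism onto `KU n r`. -/
def GRA_stmt : Prop := ∀ (V : Type) [Fintype V] [DecidableEq V] (G : SimpleGraph V) (r : ℕ),
  (r : ℕ∞) ≤ G.chromaticNumber → r * (r - 1) ≤ ep G Finset.univ ∧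
  (ep G Finset.univ = r * (r - 1) → Nonempty (G ≃g KU (Fintype.card V) r))

/-- **LUP** (LONG). Upper bound for `L_2(n,r)`, `r` fixed. uses: LTW, BRC, LAM, ASY, OMF, D23.
Proof. `h_r(n) = F_(n-r+1)(r)/F_(n-r)(r)` for `n ≥ r`, `h_0(n) = gb n`. From `F_m(z+1) = F_(m+1)(z) - z F_m(z)`: `h_(r+1)(n) = h_r(n-1)(h_r(n) - r)/(h_r(n-1) - r) = h_r(n) + r (h_r(n) - h_r(n-1))/(h_r(n-1) - r)` for `n > r`. Induction on `r`: for every `e > 0` and `n` large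
`|h_r(n) - h_r(n-1) - xx n| ≤ e xx n` and `gb n ≤ h_r(n) ≤ gb n + (r(r-1)/2)(1+e) xx n/gb n`. Step: `h_r(n-1) - r ≥ gb(n-1) - r ≥ gb n (1-e)`; for the first part the difference `h_(r+1)(n) - h_(r+1)(n-1) - (h_r(n) - h_r(n-1))` is `r` times the difference of two quotients of size `≤ 8 xx n/gb n`
(`xx (n-1) ≤ 2 xx n`, ASY), and `gb n → ∞`. -/
def LUP_stmt : Prop := ∀ (r : ℕ) (e : ℝ), 0 < e → ∃ M : ℕ, ∀ n : ℕ, M ≤ n →
  L2 n r + 1 ≤ gb n + ((r : ℝ) * ((r : ℝ) - 1) / 2) * (1 + e) * (xx n / gb n)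

/-- **FCH** (medium). The theorem. uses: CST, GRA, ISA, LUP, AVG, EPC, ASY.
Proof. `k = r(r-1)/2`, `e = 1/(4k+4)`, `n = |V|` large. By GRA `ep ≥ 2k`. If `ep = 2k` then `G ≃g KU n r` and both sides are equal (ISA). Otherwise `ep ≥ 2(k+1)` (EPC: even), and CST for `k+1`: `avg G + 1 ≥ gb n + (k+1)(1-e) γ > gb n + k(1+e) γ ≥ L2 n r + 1` (`γ = xx n/gb n > 0`), so `avg G > L2 n r`,
and `G` is not isomorphic to `KU n r` (ISA). -/
def FCH_stmt : Prop := ∀ r : ℕ, ∃ n0 : ℕ, ∀ (V : Type) [Fintype V] (G : SimpleGraph V), n0 ≤ Fintype.card V →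
  (r : ℕ∞) ≤ G.chromaticNumber →
  L2 (Fintype.card V) r ≤ avg G ∧ (avg G = L2 (Fintype.card V) r ↔ Nonempty (G ≃g KU (Fintype.card V) r))

end Pool.Agent.helper34.AC
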